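import Pool.Agent.Helper96.Eng.Defs

/-!
# Engel type words in `SL_2` and transfer to sections isomorphic to `PSL_2`
-/

set_option autoImplicit false

universe u

namespace Pool.Agent.Helper96.Eng

/-- the map `z ↦ [z,y]` -/
def cm {G : Type*} [Group G] (y : G) : G → G := fun z => z⁻¹ * y⁻¹ * z * y

/-- product of the off-diagonal entries -/
def bb {F : Type*} [Field F] (g : Matrix.SpecialLinearGroup (Fin 2) F) : F := g.1 0 1 * g.1 1 0

theorem bb_cm_aux {F : Type*} [Field F] (S T : F)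
    (hd : (!![S, 0; 0, T] : Matrix (Fin 2) (Fin 2) F).det = 1) (hST : S * T = 1)
    (p q r s : F) (hA : (!![p, q; r, s] : Matrix (Fin 2) (Fin 2) F).det = 1) :
    bb (cm (⟨!![S, 0; 0, T], hd⟩ : Matrix.SpecialLinearGroup (Fin 2) F) ⟨!![p, q; r, s], hA⟩) =
      -(S - T) ^ 2 * (q * r) * (q * r + 1) := by
  rw [Matrix.det_fin_two_of] at hA
  simp only [bb, cm, Matrix.SpecialLinearGroup.coe_mul, Matrix.SpecialLinearGroup.coe_inv,
    Matrix.adjugate_fin_two_of, Matrix.mul_fin_two, Matrix.of_apply, Matrix.cons_val',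
    Matrix.cons_val_zero, Matrix.cons_val_one, Matrix.cons_val_fin_one]
  grind

/-- diagonal matrix -/
def yD {F : Type*} [Field F] (S : F) (hS : S ≠ 0) : Matrix.SpecialLinearGroup (Fin 2) F :=
  ⟨!![S, 0; 0, 1 / S], by
    rw [Matrix.det_fin_two_of, mul_one_div_cancel hS, mul_zero, sub_zero]⟩

theorem bb_cm {F : Type*} [Field F] (S : F) (hS : S ≠ 0)
    (g : Matrix.SpecialLinearGroup (Fin 2) F) :
    bb (cm (yD S hS) g) = -(S - 1 / S) ^ 2 * bb g * (bb g + 1) := by
  obtain ⟨A, hA⟩ := g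
  have hA' : A = !![A 0 0, A 0 1; A 1 0, A 1 1] := Matrix.eta_fin_two A
  generalize A 0 0 = p at hA'
  generalize A 0 1 = q at hA'
  generalize A 1 0 = r at hA'
  generalize A 1 1 = s at hA'
  subst hA'
  exact bb_cm_aux S (1 / S) _ (mul_one_div_cancel hS) p q r s hA

/-- GRP1 -/
theorem grp {F : Type*} [Field F] (r : ℕ) (S : F) (hS : S ≠ 0) (b : ℕ → F) (h0 : b 0 = -1)
    (hb : ∀ i < r, -(S - 1 / S) ^ 2 * b (i + 1) * (b (i + 1) + 1) = b i) :
    ∃ x y : Matrix.SpecialLinearGroup (Fin 2) F, ∀ s, r < s → ∀ c : F, c ^ 2 = 1 →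
      ((cm y)^[s] x : Matrix.SpecialLinearGroup (Fin 2) F).1 ≠
        c • ((cm y)^[r] x : Matrix.SpecialLinearGroup (Fin 2) F).1 := by
  let x : Matrix.SpecialLinearGroup (Fin 2) F :=
    ⟨!![1, 1; b r, 1 + b r], by rw [Matrix.det_fin_two_of]; ring⟩
  refine ⟨x, yD S hS, fun s hs c hc heq => ?_⟩
  have h1 : ∀ i ≤ r, bb ((cm (yD S hS))^[i] x) = b (r - i) := by
    intro i
    induction i with
    | zero =>
      intro _
      show (1 : F) * b r = b r
      rw [one_mul]
    | succ i ih =>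
      intro hi
      rw [Function.iterate_succ_apply', bb_cm, ih (by omega)]
      have e1 : r - i = (r - (i + 1)) + 1 := by omega
      rw [e1]
      exact hb _ (by omega)
  have h2 : ∀ j, bb ((cm (yD S hS))^[r + 1 + j] x) = 0 := by
    intro j
    induction j with
    | zero =>
      rw [add_zero, Function.iterate_succ_apply', bb_cm, h1 r le_rfl, Nat.sub_self, h0]
      ring
    | succ j ih =>
      rw [← add_assoc, Function.iterate_succ_apply', bb_cm, ih]
      ring
  have h3 : bb ((cm (yD S hS))^[s] x) = 0 := by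
    have := h2 (s - (r + 1))
    rwa [show r + 1 + (s - (r + 1)) = s by omega] at this
  have h4 : bb ((cm (yD S hS))^[s] x) = c ^ 2 * bb ((cm (yD S hS))^[r] x) := by
    unfold bb
    rw [heq, Matrix.smul_apply, Matrix.smul_apply, smul_eq_mul, smul_eq_mul]
    ring
  rw [h3, hc, h1 r le_rfl, Nat.sub_self, h0] at h4
  have : (1 : F) = 0 := by linear_combination h4
  exact one_ne_zero this

theorem cm_iter_map {G G' : Type*} [Group G] [Group G'] (f : G →* G') (n : ℕ) (x y : G) :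
    f ((cm y)^[n] x) = (cm (f y))^[n] (f x) := by
  induction n with
  | zero => rfl
  | succ n ih =>
    rw [Function.iterate_succ_apply', Function.iterate_succ_apply', ← ih]
    simp only [cm, map_mul, map_inv]

/-- TRANSFER + char 2 : from failure of the law in `SL_2` modulo scalars. -/
theorem transfer {F : Type*} [Field F] (r s : ℕ)
    (hF : ∃ x y : Matrix.SpecialLinearGroup (Fin 2) F, ∀ c : F, c ^ 2 = 1 →
      ((cm y)^[s] x : Matrix.SpecialLinearGroup (Fin 2) F).1 ≠
        c • ((cm y)^[r] x : Matrix.SpecialLinearGroup (Fin 2) F).1)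
    (G : Type*) [Group G] (hG : ∀ x y : G, (cm y)^[r] x = (cm y)^[s] x)
    (H : Subgroup G) (π : H →* Matrix.ProjectiveSpecialLinearGroup (Fin 2) F)
    (hπ : Function.Surjective π) : False := by
  obtain ⟨x, y, hxy⟩ := hF
  obtain ⟨x', hx'⟩ := hπ (QuotientGroup.mk x)
  obtain ⟨y', hy'⟩ := hπ (QuotientGroup.mk y)
  have h1 : (cm y')^[r] x' = (cm y')^[s] x' := by
    apply Subtype.ext
    have e : ∀ n, (((cm y')^[n] x' : H) : G) = (cm (y' : G))^[n] (x' : G) :=
      fun n => cm_iter_map H.subtype n x' y'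
    rw [e, e]
    exact hG _ _
  have h2 : (QuotientGroup.mk' (Subgroup.center (Matrix.SpecialLinearGroup (Fin 2) F)))
      ((cm y)^[r] x) = (QuotientGroup.mk' (Subgroup.center (Matrix.SpecialLinearGroup (Fin 2) F)))
      ((cm y)^[s] x) := by
    rw [cm_iter_map, cm_iter_map]
    show (cm (QuotientGroup.mk y))^[r] (QuotientGroup.mk x) =
      (cm (QuotientGroup.mk y))^[s] (QuotientGroup.mk x)
    rw [← hx', ← hy', ← cm_iter_map, ← cm_iter_map, h1]
  have h3 : ((cm y)^[r] x)⁻¹ * ((cm y)^[s] x) ∈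
      Subgroup.center (Matrix.SpecialLinearGroup (Fin 2) F) := QuotientGroup.eq.1 h2
  obtain ⟨c, hc, hcA⟩ := Matrix.SpecialLinearGroup.mem_center_iff.1 h3
  refine hxy c (by simpa using hc) ?_
  have h4 : (cm y)^[s] x = ((cm y)^[r] x) * (((cm y)^[r] x)⁻¹ * ((cm y)^[s] x)) := by group
  have h5 : ((cm y)^[s] x : Matrix.SpecialLinearGroup (Fin 2) F).1 =
      ((cm y)^[r] x : Matrix.SpecialLinearGroup (Fin 2) F).1 *
        (Matrix.scalar (Fin 2) c : Matrix (Fin 2) (Fin 2) F) := by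
    rw [hcA, ← Matrix.SpecialLinearGroup.coe_mul, ← h4]
  rw [h5, Matrix.smul_eq_mul_diagonal]
  rfl

end Pool.Agent.Helper96.Eng
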