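import Pool.Agent.Helper96.Eng.Defs

/-!
# CHN: from the `Z`-chain to the `b`-chain (MP_0cb9ae_al)
-/

set_option autoImplicit false

namespace Pool.Agent.Helper96.Eng

theorem chain_b_aux {F : Type*} [Field F] (h2 : (2 : F) ≠ 0) (n : ℕ) (S : F) (hS : S ≠ 0)
    (hS4 : S ^ 4 ≠ 1) : ∀ Z : F, Chain n S Z →
    ∃ b : ℕ → F, b 0 = -1 ∧
      (∀ i < n + 1, -(S - 1 / S) ^ 2 * b (i + 1) * (b (i + 1) + 1) = b i) ∧
      b (n + 1) = (Z / S ^ 2 - -(S - 1 / S) ^ 2) / (2 * -(S - 1 / S) ^ 2) := by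
  have hS2 : S ^ 2 - 1 ≠ 0 := by
    intro h
    apply hS4
    have : S ^ 4 - 1 = (S ^ 2 - 1) * (S ^ 2 + 1) := by ring
    have h3 : S ^ 4 - 1 = 0 := by rw [this, h, zero_mul]
    exact sub_eq_zero.1 h3
  have ha : -(S - 1 / S) ^ 2 ≠ 0 := by
    have h3 : S - 1 / S = (S ^ 2 - 1) / S := by field_simp
    rw [h3]
    exact neg_ne_zero.2 (pow_ne_zero _ (div_ne_zero hS2 hS))
  have hmul : ∀ z a : F, a ≠ 0 →
      a * ((z - a) / (2 * a)) * ((z - a) / (2 * a) + 1) = (z ^ 2 - a ^ 2) / (4 * a) := by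
    intro z a ha
    have h4 : (4 : F) ≠ 0 := by
      have : (4 : F) = 2 * 2 := by norm_num
      rw [this]; exact mul_ne_zero h2 h2
    field_simp
    ring
  induction n with
  | zero =>
    intro Z hZ
    have hZ' : Z = S ^ 4 - 1 := hZ
    refine ⟨fun i => if i = 0 then -1 else (Z / S ^ 2 - -(S - 1 / S) ^ 2) / (2 * -(S - 1 / S) ^ 2),
      by simp, fun i hi => ?_, by simp⟩
    have hi0 : i = 0 := by omega
    subst hi0
    simp only [zero_add, one_ne_zero, if_false, if_true]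
    rw [hmul _ _ ha, hZ']
    have h4 : (4 : F) * -(S - 1 / S) ^ 2 ≠ 0 := by
      refine mul_ne_zero ?_ ha
      have : (4 : F) = 2 * 2 := by norm_num
      rw [this]; exact mul_ne_zero h2 h2
    rw [div_eq_iff h4]
    field_simp
    ring
  | succ n ih =>
    intro Z hZ
    obtain ⟨Z', hZ', hZZ⟩ := hZ
    obtain ⟨b, hb0, hb, hbn⟩ := ih Z' hZ'
    refine ⟨fun i => if i = n + 2 then (Z / S ^ 2 - -(S - 1 / S) ^ 2) / (2 * -(S - 1 / S) ^ 2)
      else b i, by simp [hb0], fun i hi => ?_, by simp⟩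
    rcases Nat.lt_or_ge i (n + 1) with h | h
    · have h1 : i + 1 ≠ n + 2 := by omega
      have h3 : i ≠ n + 2 := by omega
      simp only [h1, h3, if_false]
      exact hb i h
    · have h1 : i = n + 1 := by omega
      subst h1
      have h3 : n + 1 ≠ n + 2 := by omega
      simp only [h3, if_false, if_true]
      rw [hmul _ _ ha, hbn]
      have h4 : (4 : F) * -(S - 1 / S) ^ 2 ≠ 0 := by
        refine mul_ne_zero ?_ ha
        have : (4 : F) = 2 * 2 := by norm_num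
        rw [this]; exact mul_ne_zero h2 h2
      have h5 : (2 : F) * -(S - 1 / S) ^ 2 ≠ 0 := mul_ne_zero h2 ha
      rw [div_eq_div_iff h4 h5]
      have e : (Z / S ^ 2) ^ 2 = (ff S + 2 * S ^ 2 * Z') / S ^ 4 := by
        rw [div_pow, hZZ]; ring
      rw [e]
      unfold ff
      field_simp
      ring

/-- CHN: from the `Z`-chain to the `b`-chain. -/
theorem chain_b {F : Type*} [Field F] (h2 : (2 : F) ≠ 0) (n : ℕ) (S Z : F) (hS : S ≠ 0)
    (hS4 : S ^ 4 ≠ 1) (h : Chain n S Z) :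
    ∃ b : ℕ → F, b 0 = -1 ∧
      ∀ i < n + 1, -(S - 1 / S) ^ 2 * b (i + 1) * (b (i + 1) + 1) = b i := by
  obtain ⟨b, h0, hb, -⟩ := chain_b_aux h2 n S hS hS4 Z h
  exact ⟨b, h0, hb⟩

end Pool.Agent.Helper96.Eng
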