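import Pool.Agent.Helper96.Eng.Defs

/-!
# ENG, module BASE: the first stage of the tower (the affine line)
-/

set_option autoImplicit false

open PowerSeries Module

universe u

namespace Pool.Agent.Helper96.Eng

section base
variable (F : Type u) [Field F]

theorem base_mem {n : ℕ} {f : Polynomial F} :
    f ∈ Polynomial.degreeLT F (n + 1) ↔ f.natDegree ≤ n := by
  rw [Polynomial.mem_degreeLT, Polynomial.natDegree_le_iff_degree_le]
  rw [show ((n + 1 : ℕ) : WithBot ℕ) = Order.succ (n : WithBot ℕ) from rfl, Order.lt_succ_iff]

/-- the Taylor map of the affine line -/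
noncomputable def baseT : Polynomial F →ₐ[F] PowerSeries (Polynomial F) :=
  Polynomial.aeval (C (Polynomial.X : Polynomial F) +
    C ((Polynomial.X : Polynomial F) ^ 5 - Polynomial.X) * X)

theorem baseT_X : baseT F Polynomial.X = C (Polynomial.X : Polynomial F) +
    C ((Polynomial.X : Polynomial F) ^ 5 - Polynomial.X) * X := Polynomial.aeval_X _

theorem base_E_deg : ((Polynomial.X : Polynomial F) ^ 5 - Polynomial.X).natDegree ≤ 5 := by
  compute_degree

theorem baseT_pow (m : ℕ) : ∀ k, coeff k (baseT F (Polynomial.X ^ m)) ∈
    Polynomial.degreeLT F (m + 4 * k + 1) := by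
  induction m with
  | zero =>
    intro k
    rw [pow_zero, map_one, coeff_one, base_mem]
    split_ifs <;> simp
  | succ m ih =>
    intro k
    rw [pow_succ, map_mul, baseT_X, mul_add, ← mul_assoc, map_add]
    apply Submodule.add_mem
    · rw [coeff_mul_C, base_mem]
      have := ih k
      rw [base_mem] at this
      refine (Polynomial.natDegree_mul_le).trans ?_
      rw [Polynomial.natDegree_X]
      omega
    · cases k with
      | zero =>
        rw [coeff_zero_mul_X]
        exact Submodule.zero_mem _
      | succ k =>
        rw [coeff_succ_mul_X, coeff_mul_C, base_mem]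
        have := ih k
        rw [base_mem] at this
        refine (Polynomial.natDegree_mul_le).trans ?_
        have := base_E_deg F
        omega

theorem baseT_mem (n k : ℕ) (a : Polynomial F) (ha : a ∈ Polynomial.degreeLT F (n + 1)) :
    coeff k (baseT F a) ∈ Polynomial.degreeLT F (n + 4 * k + 1) := by
  classical
  rw [Polynomial.degreeLT_eq_span_X_pow] at ha
  induction ha using Submodule.span_induction with
  | mem x hx =>
    rw [Finset.mem_coe, Finset.mem_image] at hx
    obtain ⟨m, hm, rfl⟩ := hx
    rw [Finset.mem_range] at hm
    exact Polynomial.degreeLT_mono (by omega) (baseT_pow F m k)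
  | zero => rw [map_zero, map_zero]; exact Submodule.zero_mem _
  | add x y _ _ hx hy => rw [map_add, map_add]; exact Submodule.add_mem _ hx hy
  | smul c x _ hx =>
    rw [map_smul]
    have : coeff k (c • baseT F x) = c • coeff k (baseT F x) := rfl
    rw [this]
    exact Submodule.smul_mem _ _ hx

theorem base_finrank (n : ℕ) : Module.finrank F (Polynomial.degreeLT F n) = n := by
  rw [(Polynomial.degreeLTEquiv F n).finrank_eq]; simp

/-- curve data on the affine line -/
noncomputable def baseCurve : CurveData F (Polynomial F) 1 1 4 where
  V n := Polynomial.degreeLT F (n + 1)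
  mono m n h := Polynomial.degreeLT_mono (by omega)
  one_mem := by rw [base_mem]; simp
  mul_mem m n x y hx hy := by
    rw [base_mem] at *
    exact (Polynomial.natDegree_mul_le).trans (by omega)
  exh x := ⟨x.natDegree, by rw [base_mem]⟩
  fin n := Module.Finite.equiv (Polynomial.degreeLTEquiv F (n + 1)).symm
  lo n := by rw [base_finrank]; omega
  hi n := by rw [base_finrank]; omega
  T := baseT F
  T_zero a := by
    have h : (constantCoeff (R := Polynomial F)).comp ((baseT F).toRingHom) = RingHom.id _ := by
      apply Polynomial.ringHom_ext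
      · intro a
        have : baseT F (Polynomial.C a) = algebraMap F _ a := (baseT F).commutes a
        show constantCoeff (baseT F (Polynomial.C a)) = _
        rw [this]
        rfl
      · show constantCoeff (baseT F Polynomial.X) = _
        rw [baseT_X]
        simp
    have := congrArg (fun f => f a) h
    simpa using this
  T_mem n k a ha := baseT_mem F n k a ha
  S := Polynomial.X
  E := Polynomial.X ^ 5 - Polynomial.X
  S_mem := by rw [base_mem]; exact Polynomial.natDegree_X_le
  T_S := baseT_X F

/-- order of vanishing at `1` -/
noncomputable def baseV : AddValuation (Polynomial F) ℕ∞ :=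
  multiplicity_addValuation (Polynomial.prime_X_sub_C (1 : F))

theorem baseV_eq_zero (p : Polynomial F) (h : p.eval 1 ≠ 0) : baseV F p = 0 := by
  rw [baseV, multiplicity_addValuation_apply, emultiplicity_eq_zero, Polynomial.dvd_iff_isRoot]
  exact h

theorem baseV_X_sub : baseV F (Polynomial.X - Polynomial.C 1) = 1 := by
  rw [baseV, multiplicity_addValuation_apply]
  exact (FiniteMultiplicity.of_prime_left (Polynomial.prime_X_sub_C (1 : F))
    (Polynomial.X_sub_C_ne_zero 1)).emultiplicity_self

/-- the first stage -/
noncomputable def baseStage (h2 : (2 : F) ≠ 0) : Stage F 0 1 1 4 where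
  A := Polynomial F
  dom := inferInstance
  cd := baseCurve F
  Z := Polynomial.X ^ 4 - 1
  Z_mem := by
    show _ ∈ Polynomial.degreeLT F (4 + 1)
    rw [base_mem]; compute_degree
  v := baseV F
  v_top a ha := by
    rw [baseV, multiplicity_addValuation_apply] at ha
    by_contra h0
    have := FiniteMultiplicity.of_prime_left (Polynomial.prime_X_sub_C (1 : F)) h0
    rw [finiteMultiplicity_iff_emultiplicity_ne_top] at this
    exact this ha
  v_Z := by
    have e : (Polynomial.X ^ 4 - 1 : Polynomial F) =
        (Polynomial.X - Polynomial.C 1) * (Polynomial.X ^ 3 + Polynomial.X ^ 2 + Polynomial.X + 1) := by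
      rw [Polynomial.C_1]; ring
    rw [e, AddValuation.map_mul, baseV_X_sub, baseV_eq_zero, add_zero]
    simp only [Polynomial.eval_add, Polynomial.eval_pow, Polynomial.eval_X, Polynomial.eval_one,
      one_pow]
    have : (1 + 1 + 1 + 1 : F) = 2 * 2 := by ring
    rw [this]
    exact mul_ne_zero h2 h2
  v_S := by
    apply baseV_eq_zero
    show Polynomial.eval 1 Polynomial.X ≠ 0
    simp
  v_S2 := by
    have e : ((baseCurve F).S ^ 2 - 1 : Polynomial F) =
        (Polynomial.X - Polynomial.C 1) * (Polynomial.X + 1) := by
      show (Polynomial.X ^ 2 - 1 : Polynomial F) = _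
      rw [Polynomial.C_1]; ring
    rw [e, AddValuation.map_mul, baseV_X_sub]
    exact le_self_add
  pts Q hQ := by
    have h1 : Q (Polynomial.X) ^ 5 - Q (Polynomial.X) ≠ 0 := by
      intro h
      apply hQ
      show Q (Polynomial.X ^ 5 - Polynomial.X) = 0
      rw [map_sub, map_pow, h]
    refine ⟨?_, ?_, ?_⟩
    · show Q (Polynomial.X ^ 4 - 1) = (Q Polynomial.X) ^ 4 - 1
      rw [map_sub, map_pow, map_one]
    · intro h
      apply h1
      rw [show Q (Polynomial.X) = 0 from h]; ring
    · intro h
      apply h1
      have h' : (Q (Polynomial.X)) ^ 4 = 1 := h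
      rw [pow_succ, h']; ring

end base

/-- BASE -/
theorem base (F : Type u) [Field F] [Fintype F] (h2 : (2 : F) ≠ 0) :
    ∃ (st : Stage F 0 1 1 4) (s : Finset (st.A →ₐ[F] F)), (∀ Q ∈ s, Q st.cd.E ≠ 0) ∧
      Fintype.card F ≤ s.card + 5 := by
  classical
  have key : ∃ s : Finset (Polynomial F →ₐ[F] F),
      (∀ Q ∈ s, Q (Polynomial.X ^ 5 - Polynomial.X) ≠ 0) ∧ Fintype.card F ≤ s.card + 5 := by
    refine ⟨((Finset.univ : Finset F).filter (fun t => t ^ 5 - t ≠ 0)).image
      (fun t => Polynomial.aeval t), ?_, ?_⟩
    · intro Q hQ
      rw [Finset.mem_image] at hQ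
      obtain ⟨t, ht, rfl⟩ := hQ
      rw [Finset.mem_filter] at ht
      simpa using ht.2
    · rw [Finset.card_image_of_injective]
      · have h1 := Finset.card_filter_add_card_filter_not (s := (Finset.univ : Finset F))
          (fun t => t ^ 5 - t ≠ 0)
        rw [Finset.card_univ] at h1
        have h3 : ((Finset.univ : Finset F).filter (fun t => ¬ (t ^ 5 - t ≠ 0))).card ≤ 5 := by
          have hp : (Polynomial.X ^ 5 - Polynomial.X : Polynomial F) ≠ 0 := by
            intro h
            have := congrArg (fun p => Polynomial.coeff p 5) h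
            simp [Polynomial.coeff_X] at this
          calc _ ≤ (Polynomial.X ^ 5 - Polynomial.X : Polynomial F).roots.toFinset.card := by
                apply Finset.card_le_card
                intro t ht
                rw [Finset.mem_filter] at ht
                rw [Multiset.mem_toFinset, Polynomial.mem_roots hp, Polynomial.IsRoot.def]
                simpa using ht.2
            _ ≤ Multiset.card (Polynomial.X ^ 5 - Polynomial.X : Polynomial F).roots :=
                Multiset.toFinset_card_le _
            _ ≤ (Polynomial.X ^ 5 - Polynomial.X : Polynomial F).natDegree :=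
                Polynomial.card_roots' _
            _ ≤ 5 := base_E_deg F
        omega
      · intro a b hab
        have := congrArg (fun f => f Polynomial.X) hab
        simpa using this
  obtain ⟨s, hs, hc⟩ := key
  exact ⟨baseStage F h2, s, hs, hc⟩

end Pool.Agent.Helper96.Eng
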