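import Pool.Agent.Helper96.Eng.Nonz

/-!
# ENG CORE : Stepanov's method
-/

set_option autoImplicit false

open PowerSeries Module

universe u

namespace Pool.Agent.Helper96.Eng

theorem pow_mem {F A : Type u} [Field F] [CommRing A] [Algebra F A]
    {D c κ : ℕ} (cd : CurveData F A D c κ) (J : ℕ) (g : A) (hg : g ∈ cd.V J) (n : ℕ) :
    g ^ n ∈ cd.V (J * n) := by
  induction n with
  | zero => simpa using cd.one_mem
  | succ n ih =>
    rw [pow_succ, Nat.mul_succ]
    exact cd.mul_mem _ _ _ _ ih hg

/-- CORE -/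
theorem core {F A : Type u} [Field F] [Fintype F] [CommRing A] [IsDomain A] [Algebra F A]
    {D c κ : ℕ} (cd : CurveData F A D c κ) (L J M : ℕ) (hM : M ≤ Fintype.card F)
    (hq : D * L + 2 * c < Fintype.card F)
    (hcount : ∑ k ∈ Finset.range M, finrank F (cd.V (L + J + κ * k)) <
      finrank F (cd.V L) * finrank F (cd.V J))
    (s : Finset (A →ₐ[F] F)) (hs : ∀ Q ∈ s, Q cd.E ≠ 0) :
    s.card * M ≤ D * (L + J * Fintype.card F) + 2 * c := by
  classical
  rcases s.eq_empty_or_nonempty with rfl | ⟨P, hPs⟩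
  · simp
  have hP := hs P hPs
  have hfin := cd.fin
  set q := Fintype.card F with hqdef
  set e' := finBasis F (cd.V L) with he'
  set f' := finBasis F (cd.V J) with hf'
  set a := finrank F (cd.V L) with ha
  set b := finrank F (cd.V J) with hb
  let e : Fin a → A := fun i => (e' i : A)
  let f : Fin b → A := fun i => (f' i : A)
  have he : LinearIndependent F e := e'.linearIndependent.map' (cd.V L).subtype (by simp)
  have hf : LinearIndependent F f := f'.linearIndependent.map' (cd.V J).subtype (by simp)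
  have heL : ∀ i, e i ∈ cd.V L := fun i => (e' i).2
  have hfJ : ∀ i, f i ∈ cd.V J := fun i => (f' i).2
  -- the linear system
  have hmem : ∀ (x : Fin a × Fin b → F) (k : ℕ),
      ∑ p, x p • (coeff k (cd.T (e p.1)) * f p.2) ∈ cd.V (L + J + κ * k) := by
    intro x k
    refine Submodule.sum_mem _ fun p _ => Submodule.smul_mem _ _ ?_
    have h1 := cd.mul_mem _ _ _ _ (cd.T_mem L k _ (heL p.1)) (hfJ p.2)
    have h2 : L + κ * k + J = L + J + κ * k := by ring
    rwa [h2] at h1
  let Λ : (Fin a × Fin b → F) →ₗ[F] ((k : Fin M) → cd.V (L + J + κ * (k : ℕ))) :=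
    { toFun := fun x k => ⟨∑ p, x p • (coeff (k : ℕ) (cd.T (e p.1)) * f p.2), hmem x k⟩
      map_add' := fun x y => by
        funext k; apply Subtype.ext
        simp [add_smul, Finset.sum_add_distrib]
      map_smul' := fun r x => by
        funext k; apply Subtype.ext
        simp [mul_smul, Finset.smul_sum] }
  have hker : LinearMap.ker Λ ≠ ⊥ := by
    apply LinearMap.ker_ne_bot_of_finrank_lt
    rw [Module.finrank_pi_fintype, Module.finrank_fintype_fun_eq_card]
    rw [Finset.sum_range] at hcount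
    simpa using hcount
  obtain ⟨x, hx, hx0⟩ := (Submodule.ne_bot_iff _).1 hker
  rw [LinearMap.mem_ker] at hx
  have hxk : ∀ k < M, ∑ p, x p • (coeff k (cd.T (e p.1)) * f p.2) = 0 := by
    intro k hk
    have h1 : ((Λ x ⟨k, hk⟩ : cd.V (L + J + κ * k)) : A) = 0 := by rw [hx]; rfl
    exact h1
  -- the auxiliary function
  let g : Fin a → A := fun i => ∑ j, x (i, j) • f j
  have hgJ : ∀ i, g i ∈ cd.V J := fun i =>
    Submodule.sum_mem _ fun j _ => Submodule.smul_mem _ _ (hfJ j)
  have hg0 : ∃ i, g i ≠ 0 := by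
    by_contra hcon
    push Not at hcon
    apply hx0
    funext p
    exact Fintype.linearIndependent_iff.1 hf (fun j => x (p.1, j)) (hcon p.1) p.2
  have hΨ0 := nonzero cd P hP L hq e g he heL hg0
  have hgk : ∀ k < M, ∑ i, coeff k (cd.T (e i)) * g i = 0 := by
    intro k hk
    rw [← hxk k hk, Fintype.sum_prod_type]
    refine Finset.sum_congr rfl fun i _ => ?_
    rw [Finset.mul_sum]
    refine Finset.sum_congr rfl fun j _ => ?_
    rw [mul_smul_comm]
  refine zero_bound cd s hs M (L + J * q) (∑ i, e i * g i ^ q) ?_ hΨ0 ?_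
  · exact Submodule.sum_mem _ fun i _ => cd.mul_mem _ _ _ _ (heL i) (pow_mem cd J _ (hgJ i) q)
  · intro Q hQ k hk
    have hkq : k < q := lt_of_lt_of_le hk hM
    have h1 : ∀ i, coeff k (cd.T (e i * g i ^ q)) = coeff k (cd.T (e i)) * g i ^ q := by
      intro i
      obtain ⟨t, ht⟩ := pow_card_series (F := F) (cd.T (g i))
      rw [map_mul, map_pow, ht, cd.T_zero, mul_add, map_add, coeff_mul_C, ← mul_assoc,
        mul_comm (cd.T (e i)), mul_assoc, coeff_X_pow_mul', if_neg (by omega), add_zero]
    rw [map_sum, map_sum, map_sum]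
    have h2 : ∀ i ∈ (Finset.univ : Finset (Fin a)), Q (coeff k (cd.T (e i * g i ^ q))) =
        Q (coeff k (cd.T (e i)) * g i) := by
      intro i _
      rw [h1 i, map_mul, map_mul, map_pow, FiniteField.pow_card]
    rw [Finset.sum_congr rfl h2, ← map_sum, hgk k hk, map_zero]

end Pool.Agent.Helper96.Eng
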