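import Mathlib

/-!
# Definitions for the Engel-type law / PSL_2 project (MP_0cb9ae_al)

`CurveData F A D c κ` : a filtered `F`-algebra `A` (coordinate ring of an affine curve) with
`D n - c ≤ dim V_n ≤ D n + c`, together with a Taylor map `T : A → A⟦X⟧`.
-/

set_option autoImplicit false

open PowerSeries

universe u

namespace Pool.Agent.Helper96.Eng

/-- A filtered algebra with a Taylor map. -/
structure CurveData (F A : Type*) [Field F] [CommRing A] [Algebra F A] (D c κ : ℕ) where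
  /-- the filtration -/
  V : ℕ → Submodule F A
  mono : Monotone V
  one_mem : (1 : A) ∈ V 0
  mul_mem : ∀ m n x y, x ∈ V m → y ∈ V n → x * y ∈ V (m + n)
  exh : ∀ x, ∃ n, x ∈ V n
  fin : ∀ n, Module.Finite F (V n)
  lo : ∀ n, D * n ≤ Module.finrank F (V n) + c
  hi : ∀ n, Module.finrank F (V n) ≤ D * n + c
  /-- the Taylor map -/
  T : A →ₐ[F] PowerSeries A
  T_zero : ∀ a, coeff 0 (T a) = a
  T_mem : ∀ n k a, a ∈ V n → coeff k (T a) ∈ V (n + κ * k)
  /-- the separating variable -/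
  S : A
  /-- its derivative -/
  E : A
  S_mem : S ∈ V 1
  T_S : T S = C S + C E * X

/-- `f = (S^2-1)^2 (S^4+1)` -/
def ff {R : Type*} [CommRing R] (S : R) : R := (S ^ 2 - 1) ^ 2 * (S ^ 4 + 1)

/-- `Chain n S Z`: `Z = Z_{n+1}` in a tower `Z_1 = S^4-1`, `Z_{i+1}^2 = f + 2 S^2 Z_i`. -/
def Chain {R : Type*} [CommRing R] : ℕ → R → R → Prop
  | 0, S, Z => Z = S ^ 4 - 1
  | n + 1, S, Z => ∃ Z', Chain n S Z' ∧ Z ^ 2 = ff S + 2 * S ^ 2 * Z'

/-- The `n`-th stage of the tower of curves over `F`. -/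
structure Stage (F : Type u) [Field F] (n D c κ : ℕ) where
  /-- the coordinate ring -/
  A : Type u
  [cr : CommRing A]
  [alg : Algebra F A]
  dom : IsDomain A
  /-- filtration and Taylor map -/
  cd : CurveData F A D c κ
  /-- the last coordinate -/
  Z : A
  Z_mem : Z ∈ cd.V 4
  /-- order of vanishing at the totally ramified point -/
  v : AddValuation A ℕ∞
  v_top : ∀ a, v a = ⊤ → a = 0
  v_Z : v Z = 1
  v_S : v cd.S = 0
  v_S2 : 1 ≤ v (cd.S ^ 2 - 1)
  pts : ∀ Q : A →ₐ[F] F, Q cd.E ≠ 0 →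
    Chain n (Q cd.S) (Q Z) ∧ Q cd.S ≠ 0 ∧ (Q cd.S) ^ 4 ≠ 1

attribute [instance] Stage.cr Stage.alg

end Pool.Agent.Helper96.Eng
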