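import Pool.Agent.Helper96.Eng.Sqrt

/-!
# ENG EXT : the quadratic extension `z^2 = h` of a filtered algebra with Taylor map
-/

set_option autoImplicit false

open PowerSeries Module

universe u

namespace Pool.Agent.Helper96.Eng

section Ext

variable {F A : Type u} [Field F] [CommRing A] [Algebra F A] {D c κ : ℕ}

/-- shifted filtration -/
def Vs (cd : CurveData F A D c κ) (w n : ℕ) : Submodule F A :=
  if w ≤ n then cd.V (n - w) else ⊥

theorem Vs_mono (cd : CurveData F A D c κ) (w : ℕ) : Monotone (Vs cd w) := by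
  intro m n hmn
  unfold Vs
  by_cases h : w ≤ m
  · rw [if_pos h, if_pos (by omega)]
    exact cd.mono (by omega)
  · rw [if_neg h]; exact bot_le

theorem Vs_mul (cd : CurveData F A D c κ) (w m n : ℕ) (x y : A) (hx : x ∈ cd.V m)
    (hy : y ∈ Vs cd w n) : x * y ∈ Vs cd w (m + n) := by
  unfold Vs at hy ⊢
  by_cases h : w ≤ n
  · rw [if_pos h] at hy
    rw [if_pos (by omega)]
    have h1 := cd.mul_mem _ _ _ _ hx hy
    have h2 : m + (n - w) = m + n - w := by omega
    rwa [h2] at h1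
  · rw [if_neg h, Submodule.mem_bot] at hy
    rw [hy, mul_zero]
    exact Submodule.zero_mem _

theorem Vs_mul_Vs (cd : CurveData F A D c κ) (w m n : ℕ) (h x y : A) (hh : h ∈ cd.V (2 * w))
    (hx : x ∈ Vs cd w m) (hy : y ∈ Vs cd w n) : h * x * y ∈ cd.V (m + n) := by
  unfold Vs at hx hy
  by_cases hm : w ≤ m
  · by_cases hn : w ≤ n
    · rw [if_pos hm] at hx
      rw [if_pos hn] at hy
      have h1 := cd.mul_mem _ _ _ _ (cd.mul_mem _ _ _ _ hh hx) hy
      have h2 : 2 * w + (m - w) + (n - w) = m + n := by omega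
      rwa [h2] at h1
    · rw [if_neg hn, Submodule.mem_bot] at hy
      rw [hy, mul_zero]
      exact Submodule.zero_mem _
  · rw [if_neg hm, Submodule.mem_bot] at hx
    rw [hx, mul_zero, zero_mul]
    exact Submodule.zero_mem _

/-- the filtration of the extension -/
def VB (cd : CurveData F A D c κ) (w : ℕ) (h : A) (n : ℕ) :
    Submodule F (QuadraticAlgebra A h 0) where
  carrier := {b | b.re ∈ cd.V n ∧ b.im ∈ Vs cd w n}
  zero_mem' := ⟨Submodule.zero_mem _, Submodule.zero_mem _⟩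
  add_mem' := fun ha hb => ⟨Submodule.add_mem _ ha.1 hb.1, Submodule.add_mem _ ha.2 hb.2⟩
  smul_mem' := fun r _ ha => ⟨Submodule.smul_mem _ r ha.1, Submodule.smul_mem _ r ha.2⟩

theorem mem_VB (cd : CurveData F A D c κ) (w : ℕ) (h : A) (n : ℕ)
    (b : QuadraticAlgebra A h 0) : b ∈ VB cd w h n ↔ b.re ∈ cd.V n ∧ b.im ∈ Vs cd w n := Iff.rfl

/-- linear equivalence -/
def VBequiv (cd : CurveData F A D c κ) (w : ℕ) (h : A) (n : ℕ) :
    VB cd w h n ≃ₗ[F] (cd.V n × Vs cd w n) where
  toFun b := (⟨b.1.re, b.2.1⟩, ⟨b.1.im, b.2.2⟩)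
  invFun p := ⟨⟨p.1.1, p.2.1⟩, ⟨p.1.2, p.2.2⟩⟩
  map_add' _ _ := rfl
  map_smul' _ _ := rfl
  left_inv _ := rfl
  right_inv _ := rfl

/-- the rescaled Taylor map -/
noncomputable def RR (cd : CurveData F A D c κ) (h : A) : A →+* PowerSeries A :=
  (rescale h).comp (cd.T : A →+* PowerSeries A)

theorem coeff_RR (cd : CurveData F A D c κ) (h a : A) (k : ℕ) :
    coeff k (RR cd h a) = h ^ k * coeff k (cd.T a) := by
  simp [RR, coeff_rescale]

theorem RR_mem (cd : CurveData F A D c κ) (w : ℕ) (h : A) (hh : h ∈ cd.V (2 * w)) (n : ℕ) (a : A)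
    (ha : a ∈ cd.V n) (k : ℕ) : coeff k (RR cd h a) ∈ cd.V (n + (κ + 2 * w) * k) := by
  rw [coeff_RR]
  have h1 : ∀ m : ℕ, h ^ m ∈ cd.V (2 * w * m) := by
    intro m
    induction m with
    | zero => simpa using cd.one_mem
    | succ m ih =>
      rw [pow_succ, Nat.mul_succ]
      exact cd.mul_mem _ _ _ _ ih hh
  have h2 := cd.mul_mem _ _ _ _ (h1 k) (cd.T_mem n k a ha)
  have h3 : 2 * w * k + (n + κ * k) = n + (κ + 2 * w) * k := by ring
  rwa [h3] at h2

/-- the power series `T(h)(hX)/h` -/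
noncomputable def UU (cd : CurveData F A D c κ) (h : A) : PowerSeries A :=
  PowerSeries.mk fun k => if k = 0 then 1 else h ^ (k - 1) * coeff k (cd.T h)

theorem C_mul_UU (cd : CurveData F A D c κ) (h : A) : C h * UU cd h = RR cd h h := by
  ext k
  rw [coeff_C_mul, coeff_RR, UU, coeff_mk]
  by_cases hk : k = 0
  · subst hk
    rw [if_pos rfl, cd.T_zero]; ring
  · rw [if_neg hk]
    obtain ⟨j, rfl⟩ : ∃ j, k = j + 1 := ⟨k - 1, by omega⟩
    rw [Nat.add_sub_cancel, pow_succ]; ring

theorem UU_mem (cd : CurveData F A D c κ) (w : ℕ) (h : A) (hh : h ∈ cd.V (2 * w)) (k : ℕ) :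
    coeff k (UU cd h) ∈ cd.V ((κ + 2 * w) * k) := by
  rw [UU, coeff_mk]
  by_cases hk : k = 0
  · subst hk
    rw [if_pos rfl]; simpa using cd.one_mem
  · rw [if_neg hk]
    obtain ⟨j, rfl⟩ : ∃ j, k = j + 1 := ⟨k - 1, by omega⟩
    rw [Nat.add_sub_cancel]
    have h1 : ∀ m : ℕ, h ^ m ∈ cd.V (2 * w * m) := by
      intro m
      induction m with
      | zero => simpa using cd.one_mem
      | succ m ih =>
        rw [pow_succ, Nat.mul_succ]
        exact cd.mul_mem _ _ _ _ ih hh
    have h2 := cd.mul_mem _ _ _ _ (h1 j) (cd.T_mem (2 * w) (j + 1) h hh)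
    have h3 : 2 * w * j + (2 * w + κ * (j + 1)) = (κ + 2 * w) * (j + 1) := by ring
    rwa [h3] at h2

/-- embedding `A⟦X⟧ ⊕ A⟦X⟧ z → B⟦X⟧` -/
noncomputable def emb (h : A) (f g : PowerSeries A) : PowerSeries (QuadraticAlgebra A h 0) :=
  PowerSeries.map (algebraMap A (QuadraticAlgebra A h 0)) f +
    PowerSeries.map (algebraMap A (QuadraticAlgebra A h 0)) g * C ⟨0, 1⟩

theorem coeff_emb (h : A) (f g : PowerSeries A) (k : ℕ) :
    coeff k (emb h f g) = ⟨coeff k f, coeff k g⟩ := by
  rw [emb, map_add, coeff_mul_C, coeff_map, coeff_map, QuadraticAlgebra.algebraMap_eq,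
    QuadraticAlgebra.algebraMap_eq]
  ext <;> simp

theorem emb_mul (h : A) (f g f' g' : PowerSeries A) :
    emb h f g * emb h f' g' = emb h (f * f' + C h * g * g') (f * g' + g * f') := by
  have hz : (C (⟨0, 1⟩ : QuadraticAlgebra A h 0) * C ⟨0, 1⟩ :
      PowerSeries (QuadraticAlgebra A h 0)) =
      PowerSeries.map (algebraMap A (QuadraticAlgebra A h 0)) (C h) := by
    rw [← map_mul, map_C, QuadraticAlgebra.algebraMap_eq]
    congr 1
    ext <;> simp
  simp only [emb, map_add, map_mul]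
  linear_combination (PowerSeries.map (algebraMap A (QuadraticAlgebra A h 0)) g *
    PowerSeries.map (algebraMap A (QuadraticAlgebra A h 0)) g') * hz

theorem emb_add (h : A) (f g f' g' : PowerSeries A) :
    emb h f g + emb h f' g' = emb h (f + f') (g + g') := by
  simp only [emb, map_add]
  ring

/-- the Taylor map of the extension -/
noncomputable def TB (cd : CurveData F A D c κ) (h : A) (W : PowerSeries A)
    (hW : W ^ 2 = UU cd h) :
    QuadraticAlgebra A h 0 →ₐ[F] PowerSeries (QuadraticAlgebra A h 0) where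
  toFun b := emb h (RR cd h b.re) (RR cd h b.im * W)
  map_one' := by
    rw [QuadraticAlgebra.re_one, QuadraticAlgebra.im_one, map_one, map_zero, zero_mul, emb]
    simp
  map_zero' := by
    rw [QuadraticAlgebra.re_zero, QuadraticAlgebra.im_zero, map_zero, zero_mul, emb]
    simp
  map_mul' a b := by
    rw [emb_mul, QuadraticAlgebra.re_mul, QuadraticAlgebra.im_mul]
    simp only [map_add, map_mul, zero_mul, add_zero]
    congr 1
    · rw [← C_mul_UU, ← hW]; ring
    · ring
  map_add' a b := by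
    rw [emb_add, QuadraticAlgebra.re_add, QuadraticAlgebra.im_add, map_add, map_add, add_mul]
  commutes' r := by
    have h1 : (algebraMap F (QuadraticAlgebra A h 0) r) = ⟨algebraMap F A r, 0⟩ := rfl
    have h2 : cd.T (algebraMap F A r) = algebraMap F (PowerSeries A) r := cd.T.commutes r
    have h3 : RR cd h (algebraMap F A r) = C (algebraMap F A r) := by
      have h4 : RR cd h (algebraMap F A r) = rescale h (cd.T (algebraMap F A r)) := rfl
      rw [h4, h2, PowerSeries.algebraMap_apply]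
      ext k
      rw [coeff_rescale, coeff_C]
      by_cases hk : k = 0
      · subst hk; simp
      · simp [hk]
    rw [h1, h3, map_zero, zero_mul, PowerSeries.algebraMap_apply, h1, emb, map_zero, zero_mul,
      add_zero, map_C, QuadraticAlgebra.algebraMap_eq]

theorem coeff_TB (cd : CurveData F A D c κ) (h : A) (W : PowerSeries A)
    (hW : W ^ 2 = UU cd h) (b : QuadraticAlgebra A h 0) (k : ℕ) :
    coeff k (TB cd h W hW b) = ⟨coeff k (RR cd h b.re), coeff k (RR cd h b.im * W)⟩ :=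
  coeff_emb _ _ _ _

end Ext

/-- EXT -/
theorem ext_curve {F A : Type u} [Field F] [CommRing A] [IsDomain A] [Algebra F A]
    (h2 : (2 : F) ≠ 0) {D c κ : ℕ} (cd : CurveData F A D c κ) (w : ℕ) (h : A)
    (hh : h ∈ cd.V (2 * w)) :
    ∃ cd' : CurveData F (QuadraticAlgebra A h 0) (2 * D) (2 * c + D * w) (κ + 2 * w),
      cd'.S = ⟨cd.S, 0⟩ ∧ cd'.E = ⟨h * cd.E, 0⟩ ∧ (⟨0, 1⟩ : QuadraticAlgebra A h 0) ∈ cd'.V w := by
  have hU0 : coeff 0 (UU cd h) = 1 := by rw [UU, coeff_mk, if_pos rfl]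
  obtain ⟨W, hW, hW0, hWm⟩ := sqrt_series h2 cd (κ + 2 * w) (UU cd h) hU0 (UU_mem cd w h hh)
  have hfin := cd.fin
  have hfinVs : ∀ n, Module.Finite F (Vs cd w n) := by
    intro n
    by_cases hn : w ≤ n
    · rw [Vs, if_pos hn]; exact cd.fin _
    · rw [Vs, if_neg hn]; infer_instance
  have hfinrank : ∀ n, finrank F (VB cd w h n) = finrank F (cd.V n) + finrank F (Vs cd w n) := by
    intro n
    rw [(VBequiv cd w h n).finrank_eq, finrank_prod]
  have hVs : ∀ n, w ≤ n → Vs cd w n = cd.V (n - w) := fun n hn => if_pos hn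
  have hVs' : ∀ n, ¬ w ≤ n → Vs cd w n = ⊥ := fun n hn => if_neg hn
  refine ⟨{
    V := VB cd w h
    mono := fun m n hmn b hb => ⟨cd.mono hmn hb.1, Vs_mono cd w hmn hb.2⟩
    one_mem := ?_
    mul_mem := ?_
    exh := ?_
    fin := fun n => Module.Finite.equiv (VBequiv cd w h n).symm
    lo := ?_
    hi := ?_
    T := TB cd h W hW
    T_zero := ?_
    T_mem := ?_
    S := ⟨cd.S, 0⟩
    E := ⟨h * cd.E, 0⟩
    S_mem := ⟨cd.S_mem, Submodule.zero_mem _⟩
    T_S := ?_ }, rfl, rfl, ?_⟩
  · refine ⟨?_, ?_⟩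
    · rw [QuadraticAlgebra.re_one]; exact cd.one_mem
    · rw [QuadraticAlgebra.im_one]; exact Submodule.zero_mem _
  · intro m n a b ha hb
    refine ⟨?_, ?_⟩
    · rw [QuadraticAlgebra.re_mul]
      exact Submodule.add_mem _ (cd.mul_mem _ _ _ _ ha.1 hb.1)
        (Vs_mul_Vs cd w m n h _ _ hh ha.2 hb.2)
    · rw [QuadraticAlgebra.im_mul, zero_mul, zero_mul, add_zero]
      refine Submodule.add_mem _ (Vs_mul cd w m n _ _ ha.1 hb.2) ?_
      rw [mul_comm, add_comm]
      exact Vs_mul cd w n m _ _ hb.1 ha.2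
  · intro b
    obtain ⟨n1, hn1⟩ := cd.exh b.re
    obtain ⟨n2, hn2⟩ := cd.exh b.im
    refine ⟨n1 + (n2 + w), cd.mono (by omega) hn1, ?_⟩
    rw [hVs _ (by omega)]
    exact cd.mono (by omega) hn2
  · intro n
    show 2 * D * n ≤ finrank F (VB cd w h n) + (2 * c + D * w)
    rw [hfinrank]
    have h3 := cd.lo n
    by_cases hn : w ≤ n
    · rw [hVs n hn]
      have h4 := cd.lo (n - w)
      have h5 : D * n = D * (n - w) + D * w := by rw [← mul_add]; congr 1; omega
      have h6 : 2 * D * n = D * n + D * n := by ring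
      omega
    · have h5 : D * n ≤ D * w := by gcongr; omega
      have h6 : 2 * D * n = D * n + D * n := by ring
      omega
  · intro n
    show finrank F (VB cd w h n) ≤ 2 * D * n + (2 * c + D * w)
    rw [hfinrank]
    have h3 := cd.hi n
    have h6 : 2 * D * n = D * n + D * n := by ring
    by_cases hn : w ≤ n
    · rw [hVs n hn]
      have h4 := cd.hi (n - w)
      have h5 : D * (n - w) ≤ D * n := by gcongr; omega
      omega
    · rw [hVs' n hn, finrank_bot]
      omega
  · intro a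
    rw [coeff_TB, coeff_RR, pow_zero, one_mul, cd.T_zero]
    have h3 : coeff 0 (RR cd h a.im * W) = a.im := by
      rw [coeff_mul, Finset.Nat.antidiagonal_zero, Finset.sum_singleton, coeff_RR, pow_zero,
        one_mul, cd.T_zero, hW0, mul_one]
    rw [h3]
  · intro n k b hb
    rw [coeff_TB]
    refine ⟨RR_mem cd w h hh n _ hb.1 k, ?_⟩
    show coeff k (RR cd h b.im * W) ∈ Vs cd w (n + (κ + 2 * w) * k)
    by_cases hn : w ≤ n
    · have hb2 : b.im ∈ cd.V (n - w) := by rw [← hVs n hn]; exact hb.2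
      rw [hVs _ (by omega), coeff_mul]
      refine Submodule.sum_mem _ fun p hp => ?_
      rw [Finset.HasAntidiagonal.mem_antidiagonal] at hp
      have h3 := cd.mul_mem _ _ _ _ (RR_mem cd w h hh _ _ hb2 p.1) (hWm p.2)
      have h4 : n - w + (κ + 2 * w) * p.1 + (κ + 2 * w) * p.2 = n + (κ + 2 * w) * k - w := by
        have : (κ + 2 * w) * k = (κ + 2 * w) * p.1 + (κ + 2 * w) * p.2 := by
          rw [← mul_add, hp]
        omega
      rwa [h4] at h3
    · have hb2 : b.im = 0 := by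
        have := hb.2
        rw [hVs' n hn, Submodule.mem_bot] at this
        exact this
      rw [hb2, map_zero, zero_mul, map_zero]
      exact Submodule.zero_mem _
  · apply PowerSeries.ext
    intro k
    have h3 : coeff k (TB cd h W hW ⟨cd.S, 0⟩) = ⟨h ^ k * coeff k (C cd.S + C cd.E * X), 0⟩ := by
      rw [coeff_TB]
      show (⟨coeff k (RR cd h cd.S), coeff k (RR cd h 0 * W)⟩ : QuadraticAlgebra A h 0) = _
      rw [coeff_RR, cd.T_S, map_zero, zero_mul, map_zero]
    rw [h3, map_add, map_add, coeff_C, coeff_C, coeff_C_mul, coeff_C_mul, coeff_X, coeff_X]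
    rcases k with _ | _ | k
    · ext <;> simp
    · ext <;> simp
    · ext <;> simp
  · refine ⟨Submodule.zero_mem _, ?_⟩
    show (1 : A) ∈ Vs cd w w
    rw [hVs w le_rfl, Nat.sub_self]
    exact cd.one_mem

end Pool.Agent.Helper96.Eng
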