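import Pool.Agent.Helper96.Eng.Ord
import Pool.Agent.Helper96.Eng.Ext

/-!
# Module EXTSTAGE: the next stage of the tower and its twist
-/

set_option autoImplicit false

open PowerSeries Module

universe u

namespace Pool.Agent.Helper96.Eng

lemma ff_map {R R' : Type*} [CommRing R] [CommRing R'] (f : R →+* R') (S : R) :
    f (ff S) = ff (f S) := by
  simp only [ff, map_mul, map_pow, map_sub, map_add, map_one]

/-- a ring with a valuation that is finite on nonzero elements is a domain -/
lemma isDomain_of_val {B : Type*} [CommRing B] [Nontrivial B] (w : AddValuation B ℕ∞)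
    (hw : ∀ b, w b = ⊤ → b = 0) : IsDomain B := by
  have : NoZeroDivisors B := by
    refine ⟨fun {a b} hab => ?_⟩
    have h1 : w a + w b = ⊤ := by
      rw [← AddValuation.map_mul, hab, AddValuation.map_zero]
    rcases WithTop.add_eq_top.1 h1 with h | h
    · exact Or.inl (hw a h)
    · exact Or.inr (hw b h)
  exact NoZeroDivisors.to_isDomain B

/-- nonzero constants have valuation zero -/
lemma val_const {F B : Type*} [Field F] [CommRing B] [Algebra F B] (w : AddValuation B ℕ∞)
    {r : F} (hr : r ≠ 0) : w (algebraMap F B r) = 0 := by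
  have h1 : w (algebraMap F B r) + w (algebraMap F B r⁻¹) = 0 := by
    rw [← AddValuation.map_mul, ← map_mul, mul_inv_cancel₀ hr, map_one, AddValuation.map_one]
  exact (add_eq_zero.1 h1).1

lemma mem_h {F A : Type u} [Field F] [CommRing A] [Algebra F A] {D c κ : ℕ}
    (cd : CurveData F A D c κ) (Z : A) (hZ : Z ∈ cd.V 4) :
    ff cd.S + 2 * cd.S ^ 2 * Z ∈ cd.V 8 := by
  have h1 : ∀ n, (1 : A) ∈ cd.V n := fun n => cd.mono (Nat.zero_le n) cd.one_mem
  have hS2 : cd.S ^ 2 ∈ cd.V 2 := by
    rw [pow_two]; exact cd.mul_mem 1 1 _ _ cd.S_mem cd.S_mem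
  have hS4 : cd.S ^ 4 ∈ cd.V 4 := by
    have := cd.mul_mem 2 2 _ _ hS2 hS2
    have h3 : cd.S ^ 2 * cd.S ^ 2 = cd.S ^ 4 := by ring
    rwa [h3] at this
  have h3 : cd.S ^ 2 - 1 ∈ cd.V 2 := (cd.V 2).sub_mem hS2 (h1 2)
  have h4 : (cd.S ^ 2 - 1) ^ 2 ∈ cd.V 4 := by
    rw [pow_two]; exact cd.mul_mem 2 2 _ _ h3 h3
  have h5 : cd.S ^ 4 + 1 ∈ cd.V 4 := (cd.V 4).add_mem hS4 (h1 4)
  have h6 : ff cd.S ∈ cd.V 8 := cd.mul_mem 4 4 _ _ h4 h5
  have h7 : (2 : A) ∈ cd.V 2 := by
    have h8 : (2 : A) = 1 + 1 := by norm_num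
    rw [h8]; exact (cd.V 2).add_mem (h1 2) (h1 2)
  have h8 : 2 * cd.S ^ 2 * Z ∈ cd.V 8 := cd.mul_mem 4 4 _ _ (cd.mul_mem 2 2 _ _ h7 hS2) hZ
  exact (cd.V 8).add_mem h6 h8

lemma val_h {F : Type u} [Field F] (h2 : (2 : F) ≠ 0) {n D c κ : ℕ}
    (st : Stage F n D c κ) : st.v (ff st.cd.S + 2 * st.cd.S ^ 2 * st.Z) = 1 := by
  have h2' : st.v (2 : st.A) = 0 := by
    have h3 := val_const (B := st.A) st.v h2
    rwa [map_ofNat] at h3
  have hb : st.v (2 * st.cd.S ^ 2 * st.Z) = 1 := by
    rw [AddValuation.map_mul, AddValuation.map_mul, AddValuation.map_pow, h2', st.v_S, st.v_Z]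
    simp
  have ha : 2 ≤ st.v (ff st.cd.S) := by
    unfold ff
    rw [AddValuation.map_mul, AddValuation.map_pow]
    have h3 := st.v_S2
    calc (2 : ℕ∞) = 2 • (1 : ℕ∞) + 0 := by norm_num
      _ ≤ 2 • st.v (st.cd.S ^ 2 - 1) + st.v (st.cd.S ^ 4 + 1) :=
        add_le_add (nsmul_le_nsmul_right h3 2) zero_le
  have hlt : st.v (2 * st.cd.S ^ 2 * st.Z) < st.v (ff st.cd.S) := by
    rw [hb]
    exact lt_of_lt_of_le (by norm_num) ha
  rw [add_comm, AddValuation.map_add_eq_of_lt_left _ hlt, hb]

/-- EXTSTAGE: the next stage, and the twisted curve. -/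
theorem ext_stage {F : Type u} [Field F] (h2 : (2 : F) ≠ 0) {n D c κ : ℕ}
    (st : Stage F n D c κ) (h : st.A)
    (hdef : h = ff st.cd.S + 2 * st.cd.S ^ 2 * st.Z) :
    h ∈ st.cd.V 8 ∧ h ≠ 0 ∧
    (∃ st' : Stage F (n + 1) (2 * D) (2 * c + D * 4) (κ + 2 * 4),
      ∃ e : QuadraticAlgebra st.A h 0 ≃ₐ[F] st'.A, e ⟨h * st.cd.E, 0⟩ = st'.cd.E) ∧
    ∀ ν : F, ν ≠ 0 → IsDomain (QuadraticAlgebra st.A (ν • h) 0) ∧
      ∃ cd' : CurveData F (QuadraticAlgebra st.A (ν • h) 0) (2 * D) (2 * c + D * 4) (κ + 2 * 4),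
        cd'.E = ⟨ν • h * st.cd.E, 0⟩ := by
  have := st.dom
  have hmem : h ∈ st.cd.V 8 := by rw [hdef]; exact mem_h st.cd st.Z st.Z_mem
  have hv : st.v h = 1 := by rw [hdef]; exact val_h h2 st
  have hne : h ≠ 0 := by
    rintro rfl
    rw [AddValuation.map_zero] at hv
    exact absurd hv (by simp)
  refine ⟨hmem, hne, ?_, ?_⟩
  · obtain ⟨w, hw, hwm⟩ := ord_ext st.v st.v_top h hv
    obtain ⟨cd', hS', hE', hZ'⟩ := ext_curve h2 st.cd 4 h hmem
    have hdom : IsDomain (QuadraticAlgebra st.A h 0) := isDomain_of_val w hw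
    have hv0 : st.v (0 : st.A) = ⊤ := AddValuation.map_zero _
    have hv1 : st.v (1 : st.A) = 0 := AddValuation.map_one _
    let st' : Stage F (n + 1) (2 * D) (2 * c + D * 4) (κ + 2 * 4) :=
      { A := QuadraticAlgebra st.A h 0
        dom := hdom
        cd := cd'
        Z := ⟨0, 1⟩
        Z_mem := hZ'
        v := w
        v_top := hw
        v_Z := by
          rw [hwm, hv0, hv1]
          simp
        v_S := by
          rw [hS', hwm, hv0, st.v_S]
          simp
        v_S2 := by
          have h3 : (cd'.S ^ 2 - 1 : QuadraticAlgebra st.A h 0) = ⟨st.cd.S ^ 2 - 1, 0⟩ := by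
            rw [hS', pow_two]
            ext
            · show st.cd.S * st.cd.S + h * 0 * 0 - 1 = _
              ring
            · show st.cd.S * 0 + 0 * st.cd.S + 0 * 0 * 0 - 0 = _
              ring
          rw [h3, hwm, hv0]
          have h4 := st.v_S2
          refine le_min ?_ ?_
          · calc (1 : ℕ∞) ≤ 2 * 1 := by norm_num
              _ ≤ 2 * st.v (st.cd.S ^ 2 - 1) := mul_le_mul_right h4 2
          · simp
        pts := by
          intro Q hQ
          let P : st.A →ₐ[F] F := Q.comp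
            { toFun := fun a => (⟨a, 0⟩ : QuadraticAlgebra st.A h 0)
              map_one' := rfl
              map_zero' := rfl
              map_mul' := by
                intro a b
                ext
                · show a * b = a * b + h * 0 * 0
                  ring
                · show (0 : st.A) = a * 0 + 0 * b + 0 * 0 * 0
                  ring
              map_add' := by
                intro a b
                ext
                · rfl
                · show (0 : st.A) = 0 + 0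
                  ring
              commutes' := fun r => rfl }
          have hP : ∀ a, P a = Q ⟨a, 0⟩ := fun a => rfl
          have hPE : P st.cd.E ≠ 0 := by
            intro h0
            apply hQ
            rw [hE', ← hP, map_mul, h0, mul_zero]
          obtain ⟨h3, h4, h5⟩ := st.pts P hPE
          rw [hS']
          refine ⟨⟨P st.Z, h3, ?_⟩, h4, h5⟩
          have h6 : (⟨0, 1⟩ : QuadraticAlgebra st.A h 0) ^ 2 = ⟨h, 0⟩ := by
            rw [pow_two]
            ext
            · show (0 : st.A) * 0 + h * 1 * 1 = h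
              ring
            · show (0 : st.A) * 1 + 1 * 0 + 0 * 1 * 1 = 0
              ring
          rw [← map_pow, h6, ← hP, ← hP, hdef, map_add, map_mul, map_mul, map_pow, map_ofNat]
          congr 1
          exact ff_map (P : st.A →+* F) st.cd.S }
    exact ⟨st', AlgEquiv.refl, hE'.symm⟩
  · intro ν hν
    have hv' : st.v (ν • h) = 1 := by
      rw [Algebra.smul_def, AddValuation.map_mul, val_const st.v hν, hv, zero_add]
    obtain ⟨w, hw, -⟩ := ord_ext st.v st.v_top (ν • h) hv'
    obtain ⟨cd', -, hE', -⟩ := ext_curve h2 st.cd 4 (ν • h) ((st.cd.V 8).smul_mem ν hmem)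
    exact ⟨isDomain_of_val w hw, cd', hE'⟩

end Pool.Agent.Helper96.Eng
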