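import Pool.Agent.Helper96.Eng.Defs

/-!
# Module POINTS: points of `z^2 = h` and of its twist
-/

set_option autoImplicit false

open PowerSeries Module

universe u

namespace Pool.Agent.Helper96.Eng

/-- the point `⟨x,y⟩ ↦ Q x + ζ Q y` -/
def ptExt {F A : Type u} [Field F] [CommRing A] [Algebra F A] (g : A) (Q : A →ₐ[F] F) (ζ : F)
    (hζ : ζ * ζ = Q g) : QuadraticAlgebra A g 0 →ₐ[F] F where
  toFun p := Q p.re + ζ * Q p.im
  map_one' := by
    show Q (1 : A) + ζ * Q (0 : A) = 1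
    rw [map_one, map_zero]; ring
  map_zero' := by
    show Q (0 : A) + ζ * Q (0 : A) = 0
    rw [map_zero]; ring
  map_add' p q := by
    rw [QuadraticAlgebra.re_add, QuadraticAlgebra.im_add, map_add, map_add]; ring
  map_mul' p q := by
    rw [QuadraticAlgebra.re_mul, QuadraticAlgebra.im_mul]
    simp only [map_add, map_mul, ← hζ, map_zero]
    ring
  commutes' r := by
    show Q (algebraMap F A r) + ζ * Q (0 : A) = algebraMap F F r
    rw [map_zero, mul_zero, add_zero]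
    exact Q.commutes r

lemma ptExt_mk {F A : Type u} [Field F] [CommRing A] [Algebra F A] (g : A) (Q : A →ₐ[F] F) (ζ : F)
    (hζ : ζ * ζ = Q g) (x y : A) : ptExt g Q ζ hζ ⟨x, y⟩ = Q x + ζ * Q y := rfl

/-- two points over every point where `g` is a nonzero square -/
theorem points_sq {F A : Type u} [Field F] [CommRing A] [Algebra F A]
    (h2 : (2 : F) ≠ 0) (g : A) (s : Finset (A →ₐ[F] F))
    (hs : ∀ Q ∈ s, Q g ≠ 0 ∧ IsSquare (Q g)) :
    ∃ t : Finset (QuadraticAlgebra A g 0 →ₐ[F] F), t.card = 2 * s.card ∧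
      ∀ Q ∈ t, ∃ P ∈ s, ∀ a, Q ⟨a, 0⟩ = P a := by
  classical
  have hz : ∀ Q : s, ∃ ζ : F, ζ * ζ = (Q : A →ₐ[F] F) g := fun Q => by
    obtain ⟨ζ, hζ⟩ := (hs Q Q.2).2
    exact ⟨ζ, hζ.symm⟩
  choose z hz using hz
  let f : s × Bool → (QuadraticAlgebra A g 0 →ₐ[F] F) := fun p =>
    if p.2 then ptExt g p.1 (z p.1) (hz p.1)
    else ptExt g p.1 (-z p.1) (by rw [neg_mul_neg]; exact hz p.1)
  have hf0 : ∀ p : s × Bool, ∀ a, f p ⟨a, 0⟩ = (p.1 : A →ₐ[F] F) a := by
    rintro ⟨Q, b⟩ a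
    cases b <;> simp [f, ptExt_mk]
  have hf1 : ∀ p : s × Bool, f p ⟨0, 1⟩ = if p.2 then z p.1 else - z p.1 := by
    rintro ⟨Q, b⟩
    cases b <;> simp [f, ptExt_mk]
  have hinj : Function.Injective f := by
    rintro ⟨Q, b⟩ ⟨Q', b'⟩ he
    have h1 : Q = Q' := by
      apply Subtype.ext
      apply AlgHom.ext
      intro a
      rw [← hf0 (Q, b) a, ← hf0 (Q', b') a, he]
    subst h1
    have h3 : (if b then z Q else - z Q) = (if b' then z Q else - z Q) := by
      have h4 := hf1 (Q, b)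
      have h5 := hf1 (Q, b')
      simp only at h4 h5
      rw [← h4, ← h5, he]
    have hz0 : z Q ≠ 0 := by
      intro h0
      apply (hs Q Q.2).1
      rw [← hz Q, h0, mul_zero]
    have hne : z Q ≠ - z Q := by
      intro h6
      have h7 : 2 * z Q = 0 := by linear_combination h6
      rcases mul_eq_zero.1 h7 with h | h
      · exact h2 h
      · exact hz0 h
    cases b <;> cases b'
    · rfl
    · exact absurd (by simpa using h3.symm) hne
    · exact absurd (by simpa using h3) hne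
    · rfl
  refine ⟨Finset.univ.image f, ?_, ?_⟩
  · rw [Finset.card_image_of_injective _ hinj, Finset.card_univ, Fintype.card_prod,
      Fintype.card_bool, Fintype.card_coe, mul_comm]
  · intro Q hQ
    obtain ⟨p, -, rfl⟩ := Finset.mem_image.1 hQ
    exact ⟨p.1, p.1.2, hf0 p⟩

/-- POINTS -/
theorem points {F A : Type u} [Field F] [Fintype F] [CommRing A] [Algebra F A]
    (h2 : (2 : F) ≠ 0) (h : A) (ν : F) (hν : ¬ IsSquare ν) (s : Finset (A →ₐ[F] F))
    (hs : ∀ Q ∈ s, Q h ≠ 0) :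
    ∃ (tp : Finset (QuadraticAlgebra A h 0 →ₐ[F] F))
      (tm : Finset (QuadraticAlgebra A (ν • h) 0 →ₐ[F] F)),
      tp.card + tm.card = 2 * s.card ∧
      (∀ Q ∈ tp, ∃ P ∈ s, ∀ a, Q ⟨a, 0⟩ = P a) ∧ (∀ Q ∈ tm, ∃ P ∈ s, ∀ a, Q ⟨a, 0⟩ = P a) := by
  classical
  have hF : ringChar F ≠ 2 := by
    intro h
    apply h2
    have := ringChar.Nat.cast_ringChar (R := F)
    rw [h] at this
    exact_mod_cast this
  have hν0 : ν ≠ 0 := by
    rintro rfl
    exact hν (IsSquare.zero)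
  obtain ⟨tp, hp1, hp2⟩ := points_sq h2 h (s.filter fun Q => IsSquare (Q h)) (by
    intro Q hQ
    exact ⟨hs Q (Finset.mem_filter.1 hQ).1, (Finset.mem_filter.1 hQ).2⟩)
  obtain ⟨tm, hm1, hm2⟩ := points_sq h2 (ν • h) (s.filter fun Q => ¬ IsSquare (Q h)) (by
    intro Q hQ
    have h1 := hs Q (Finset.mem_filter.1 hQ).1
    have h3 := (Finset.mem_filter.1 hQ).2
    have h4 : Q (ν • h) = ν * Q h := by rw [map_smul, smul_eq_mul]
    rw [h4]
    refine ⟨mul_ne_zero hν0 h1, ?_⟩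
    rw [← quadraticChar_one_iff_isSquare (mul_ne_zero hν0 h1), map_mul,
      quadraticChar_neg_one_iff_not_isSquare.2 hν, quadraticChar_neg_one_iff_not_isSquare.2 h3]
    norm_num)
  refine ⟨tp, tm, ?_, ?_, ?_⟩
  · rw [hp1, hm1, ← mul_add, Finset.card_filter_add_card_filter_not]
  · intro Q hQ
    obtain ⟨P, hP, h3⟩ := hp2 Q hQ
    exact ⟨P, (Finset.mem_filter.1 hP).1, h3⟩
  · intro Q hQ
    obtain ⟨P, hP, h3⟩ := hm2 Q hQ
    exact ⟨P, (Finset.mem_filter.1 hP).1, h3⟩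

end Pool.Agent.Helper96.Eng
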