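import Pool.Agent.Helper96.Eng.Core

/-!
# ENG UB : the weak Weil upper bound
-/

set_option autoImplicit false

open PowerSeries Module

universe u

namespace Pool.Agent.Helper96.Eng

/-- UB -/
theorem upper (D c κ : ℕ) (hD : 1 ≤ D) (m : ℕ) : ∃ C q0 : ℕ,
    ∀ (F A : Type u) [Field F] [Fintype F] [CommRing A] [IsDomain A] [Algebra F A]
      (cd : CurveData F A D c κ), q0 ≤ Fintype.card F →
      ∀ s : Finset (A →ₐ[F] F), (∀ Q ∈ s, Q cd.E ≠ 0) →
        m * s.card ≤ (m + 1) * Fintype.card F + C := by
  set J := (m + 1) * (c + 1) + 1 with hJ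
  have hDJ : J ≤ D * J := Nat.le_mul_of_pos_left _ hD
  obtain ⟨M, hM⟩ : ∃ M, D * J = M + c + 1 := ⟨D * J - c - 1, by
    have : c + 1 ≤ (m + 1) * (c + 1) := Nat.le_mul_of_pos_left _ (by omega)
    omega⟩
  have hM1 : 1 ≤ M := by
    have : c + 1 ≤ (m + 1) * (c + 1) := Nat.le_mul_of_pos_left _ (by omega)
    omega
  have hmM : m * (D * J) ≤ (m + 1) * M := by
    have h1 : (m + 1) * (c + 1) ≤ D * J := by omega
    have h2 : (m + 1) * (D * J) = (m + 1) * M + (m + 1) * (c + 1) := by rw [hM]; ring
    have h3 : (m + 1) * (D * J) = m * (D * J) + D * J := by ring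
    omega
  set L := c * (M + 1) + M * (D * (J + κ * M) + c) + 1 with hL
  refine ⟨m * (D * L + 2 * c), max M (D * L + 2 * c + 1), ?_⟩
  intro F A _ _ _ _ _ cd hq s hs
  have hq1 : M ≤ Fintype.card F := le_trans (le_max_left _ _) hq
  have hq2 : D * L + 2 * c + 1 ≤ Fintype.card F := le_trans (le_max_right _ _) hq
  have hcount : ∑ k ∈ Finset.range M, finrank F (cd.V (L + J + κ * k)) <
      finrank F (cd.V L) * finrank F (cd.V J) := by
    have h1 : ∑ k ∈ Finset.range M, finrank F (cd.V (L + J + κ * k)) ≤
        M * (D * L + (D * (J + κ * M) + c)) := by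
      calc _ ≤ ∑ _k ∈ Finset.range M, (D * L + (D * (J + κ * M) + c)) := by
            refine Finset.sum_le_sum fun k hk => ?_
            have h2 := cd.hi (L + J + κ * k)
            have h3 : k ≤ M := (Finset.mem_range.1 hk).le
            have h4 : D * (L + J + κ * k) ≤ D * (L + J + κ * M) := by gcongr
            have h5 : D * (L + J + κ * M) = D * L + D * (J + κ * M) := by ring
            omega
        _ = _ := by simp
    have h2 : D * L ≤ finrank F (cd.V L) + c := cd.lo L
    have h3 : M + 1 ≤ finrank F (cd.V J) := by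
      have := cd.lo J
      omega
    have h4 : finrank F (cd.V L) * (M + 1) ≤ finrank F (cd.V L) * finrank F (cd.V J) := by
      gcongr
    have h5 : D * L * (M + 1) ≤ finrank F (cd.V L) * (M + 1) + c * (M + 1) := by
      have : D * L * (M + 1) ≤ (finrank F (cd.V L) + c) * (M + 1) := by gcongr
      linarith
    have h6 : L ≤ D * L := Nat.le_mul_of_pos_left _ hD
    have h7 : D * L * (M + 1) = M * (D * L) + D * L := by ring
    have h8 : M * (D * L + (D * (J + κ * M) + c)) = M * (D * L) + M * (D * (J + κ * M) + c) := by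
      ring
    omega
  have h1 := core cd L J M hq1 (by omega) hcount s hs
  have h2 : M * (m * s.card) ≤ M * ((m + 1) * Fintype.card F + m * (D * L + 2 * c)) := by
    calc M * (m * s.card) = m * (s.card * M) := by ring
      _ ≤ m * (D * (L + J * Fintype.card F) + 2 * c) := by gcongr
      _ = (m * (D * J)) * Fintype.card F + 1 * (m * (D * L + 2 * c)) := by ring
      _ ≤ ((m + 1) * M) * Fintype.card F + M * (m * (D * L + 2 * c)) := by gcongr
      _ = _ := by ring
  exact Nat.le_of_mul_le_mul_left h2 hM1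

end Pool.Agent.Helper96.Eng
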