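import Pool.Agent.Helper96.Eng.Defs

/-!
# ENG ZERO : the zero bound in a filtered algebra with Taylor map
-/

set_option autoImplicit false

open PowerSeries Module

universe u

namespace Pool.Agent.Helper96.Eng

section TQ

variable {F A : Type u} [Field F] [CommRing A] [Algebra F A] {D c κ : ℕ}

/-- Expansion at the point `Q`. -/
noncomputable def TQ (cd : CurveData F A D c κ) (Q : A →ₐ[F] F) : A →+* PowerSeries F :=
  (PowerSeries.map (Q : A →+* F)).comp (cd.T : A →+* PowerSeries A)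

theorem coeff_TQ (cd : CurveData F A D c κ) (Q : A →ₐ[F] F) (a : A) (k : ℕ) :
    coeff k (TQ cd Q a) = Q (coeff k (cd.T a)) := by
  simp [TQ]

theorem coeff_zero_TQ (cd : CurveData F A D c κ) (Q : A →ₐ[F] F) (a : A) :
    coeff 0 (TQ cd Q a) = Q a := by
  rw [coeff_TQ, cd.T_zero]

theorem TQ_algebraMap (cd : CurveData F A D c κ) (Q : A →ₐ[F] F) (x : F) :
    TQ cd Q (algebraMap F A x) = C x := by
  have h : cd.T (algebraMap F A x) = algebraMap F (PowerSeries A) x := cd.T.commutes x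
  ext k
  rw [coeff_TQ, h]
  have : algebraMap F (PowerSeries A) x = C (algebraMap F A x) := by
    rw [PowerSeries.algebraMap_apply]
  rw [this, coeff_C, coeff_C]
  split_ifs with hk
  · exact Q.commutes x
  · simp

theorem TQ_smul (cd : CurveData F A D c κ) (Q : A →ₐ[F] F) (x : F) (a : A) :
    TQ cd Q (x • a) = C x * TQ cd Q a := by
  rw [Algebra.smul_def, map_mul, TQ_algebraMap]

theorem TQ_S (cd : CurveData F A D c κ) (Q : A →ₐ[F] F) :
    TQ cd Q cd.S = C (Q cd.S) + C (Q cd.E) * X := by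
  have h : TQ cd Q cd.S = PowerSeries.map (Q : A →+* F) (cd.T cd.S) := rfl
  rw [h, cd.T_S]
  simp

/-- the first `M` coefficients of the expansions at a good point are arbitrary -/
theorem exists_TQ (cd : CurveData F A D c κ) (Q : A →ₐ[F] F) (hQ : Q cd.E ≠ 0) (M : ℕ)
    (x : ℕ → F) : ∃ a : A, ∀ k < M, coeff k (TQ cd Q a) = x k := by
  set σ : A := (Q cd.E)⁻¹ • (cd.S - algebraMap F A (Q cd.S)) with hσ
  have hσX : TQ cd Q σ = X := by
    rw [hσ, TQ_smul, map_sub, TQ_S, TQ_algebraMap, add_sub_cancel_left, ← mul_assoc, ← map_mul,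
      inv_mul_cancel₀ hQ, map_one, one_mul]
  refine ⟨∑ i ∈ Finset.range M, x i • σ ^ i, fun k hk => ?_⟩
  rw [map_sum, map_sum]
  have : ∀ i ∈ Finset.range M, coeff k (TQ cd Q (x i • σ ^ i)) = if k = i then x i else 0 := by
    intro i _
    rw [TQ_smul, map_pow, hσX, coeff_C_mul, coeff_X_pow]
    split_ifs <;> simp
  rw [Finset.sum_congr rfl this]
  simp [hk]

/-- the ideal of functions vanishing to order `M` at `Q` -/
noncomputable def IQ (cd : CurveData F A D c κ) (Q : A →ₐ[F] F) (M : ℕ) : Ideal A :=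
  (Ideal.span {(X : PowerSeries F) ^ M}).comap (TQ cd Q)

theorem mem_IQ (cd : CurveData F A D c κ) (Q : A →ₐ[F] F) (M : ℕ) (a : A) :
    a ∈ IQ cd Q M ↔ ∀ k < M, Q (coeff k (cd.T a)) = 0 := by
  rw [IQ, Ideal.mem_comap, Ideal.mem_span_singleton, X_pow_dvd_iff]
  simp only [coeff_TQ]

theorem ker_pow_le (cd : CurveData F A D c κ) (Q : A →ₐ[F] F) (M : ℕ) :
    RingHom.ker (Q : A →+* F) ^ M ≤ IQ cd Q M := by
  have h1 : RingHom.ker (Q : A →+* F) ≤ (Ideal.span {(X : PowerSeries F)}).comap (TQ cd Q) := by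
    intro a ha
    rw [Ideal.mem_comap, Ideal.mem_span_singleton, X_dvd_iff, ← coeff_zero_eq_constantCoeff_apply,
      coeff_zero_TQ]
    exact ha
  refine (Ideal.pow_right_mono h1 M).trans ?_
  rw [IQ, ← Ideal.span_singleton_pow]
  exact Ideal.le_comap_pow _ _

theorem coprime_IQ (cd : CurveData F A D c κ) (Q Q' : A →ₐ[F] F) (hne : Q ≠ Q') (M : ℕ) :
    IsCoprime (IQ cd Q M) (IQ cd Q' M) := by
  have h1 : IsCoprime (RingHom.ker (Q : A →+* F)) (RingHom.ker (Q' : A →+* F)) := by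
    obtain ⟨a, ha⟩ := DFunLike.ne_iff.1 hne
    have hd : Q a - Q' a ≠ 0 := sub_ne_zero.2 ha
    rw [Ideal.isCoprime_iff_exists]
    refine ⟨(Q a - Q' a)⁻¹ • (algebraMap F A (Q a) - a), ?_,
      (Q a - Q' a)⁻¹ • (a - algebraMap F A (Q' a)), ?_, ?_⟩
    · rw [RingHom.mem_ker]
      have : Q ((Q a - Q' a)⁻¹ • (algebraMap F A (Q a) - a)) = 0 := by
        rw [map_smul, map_sub, AlgHom.commutes]; simp
      exact this
    · rw [RingHom.mem_ker]
      have : Q' ((Q a - Q' a)⁻¹ • (a - algebraMap F A (Q' a))) = 0 := by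
        rw [map_smul, map_sub, AlgHom.commutes]; simp
      exact this
    · rw [← smul_add]
      have : algebraMap F A (Q a) - a + (a - algebraMap F A (Q' a)) =
          (Q a - Q' a) • (1 : A) := by
        rw [sub_smul, Algebra.algebraMap_eq_smul_one, Algebra.algebraMap_eq_smul_one]; abel
      rw [this, smul_smul, inv_mul_cancel₀ hd, one_smul]
  have h2 := h1.pow (m := M) (n := M)
  rw [Ideal.isCoprime_iff_sup_eq] at h2 ⊢
  exact top_le_iff.1 (h2 ▸ sup_le_sup (ker_pow_le cd Q M) (ker_pow_le cd Q' M))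

/-- simultaneous expansions -/
noncomputable def Phi (cd : CurveData F A D c κ) (s : Finset (A →ₐ[F] F)) (M : ℕ) :
    A →ₗ[F] (s × Fin M → F) where
  toFun a := fun p => coeff (p.2 : ℕ) (TQ cd p.1.1 a)
  map_add' a b := by funext p; simp
  map_smul' x a := by funext p; simp [TQ_smul]

theorem Phi_surj (cd : CurveData F A D c κ) (s : Finset (A →ₐ[F] F)) (M : ℕ)
    (hs : ∀ Q ∈ s, Q cd.E ≠ 0) : Function.Surjective (Phi cd s M) := by
  intro x
  have h1 : ∀ Q : s, ∃ a : A, ∀ k (hk : k < M), coeff k (TQ cd Q.1 a) = x (Q, ⟨k, hk⟩) := by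
    intro Q
    obtain ⟨a, ha⟩ := exists_TQ cd Q.1 (hs _ Q.2) M
      (fun k => if hk : k < M then x (Q, ⟨k, hk⟩) else 0)
    refine ⟨a, fun k hk => ?_⟩
    rw [ha k hk, dif_pos hk]
  choose a ha using h1
  have hI : Pairwise (Function.onFun IsCoprime (fun Q : s => IQ cd Q.1 M)) := by
    intro Q Q' hne
    exact coprime_IQ cd Q.1 Q'.1 (fun h => hne (Subtype.ext h)) M
  obtain ⟨r, hr⟩ := Ideal.exists_forall_sub_mem_ideal hI a
  refine ⟨r, ?_⟩
  funext p
  have h2 := hr p.1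
  rw [mem_IQ] at h2
  have h3 := h2 p.2 p.2.2
  rw [← coeff_TQ, map_sub, map_sub, sub_eq_zero] at h3
  show coeff (p.2 : ℕ) (TQ cd p.1.1 r) = x p
  rw [h3, ha p.1 p.2 p.2.2]

end TQ

/-- ZERO -/
theorem zero_bound {F A : Type u} [Field F] [CommRing A] [IsDomain A] [Algebra F A]
    {D c κ : ℕ} (cd : CurveData F A D c κ) (s : Finset (A →ₐ[F] F))
    (hs : ∀ Q ∈ s, Q cd.E ≠ 0) (M δ : ℕ) (Ψ : A) (hΨ : Ψ ∈ cd.V δ) (h0 : Ψ ≠ 0)
    (hv : ∀ Q ∈ s, ∀ k < M, Q (coeff k (cd.T Ψ)) = 0) :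
    s.card * M ≤ D * δ + 2 * c := by
  classical
  have hfin := cd.fin
  -- find K with Φ(V_K) everything
  obtain ⟨K, hK⟩ : ∃ K, Submodule.map (Phi cd s M) (cd.V K) = ⊤ := by
    have h1 : ∀ p : s × Fin M, ∃ n a, a ∈ cd.V n ∧ Phi cd s M a = Pi.single p 1 := by
      intro p
      obtain ⟨a, ha⟩ := Phi_surj cd s M hs (Pi.single p 1)
      obtain ⟨n, hn⟩ := cd.exh a
      exact ⟨n, a, hn, ha⟩
    choose n a ha1 ha2 using h1
    refine ⟨Finset.univ.sup n, ?_⟩
    rw [eq_top_iff]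
    intro x _
    have hx : x = ∑ p, x p • (Pi.single p (1 : F) : s × Fin M → F) := by
      funext q
      simp [Finset.sum_apply, Pi.single_apply]
    rw [hx]
    refine Submodule.sum_mem _ fun p _ => Submodule.smul_mem _ _ ?_
    exact ⟨a p, cd.mono (Finset.le_sup (Finset.mem_univ p)) (ha1 p), ha2 p⟩
  -- the restriction of Φ to V_{K+δ}
  set f : cd.V (K + δ) →ₗ[F] (s × Fin M → F) := (Phi cd s M).comp (cd.V (K + δ)).subtype with hf
  have hrange : LinearMap.range f = ⊤ := by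
    rw [eq_top_iff, ← hK]
    rintro _ ⟨a, ha, rfl⟩
    exact ⟨⟨a, cd.mono (Nat.le_add_right _ _) ha⟩, rfl⟩
  have hrn := LinearMap.finrank_range_add_finrank_ker f
  rw [hrange, finrank_top] at hrn
  have hdim : finrank F (s × Fin M → F) = s.card * M := by
    rw [Module.finrank_fintype_fun_eq_card]; simp
  -- multiplication by Ψ
  let g : cd.V K →ₗ[F] LinearMap.ker f :=
    { toFun := fun a => ⟨⟨a.1 * Ψ, cd.mul_mem _ _ _ _ a.2 hΨ⟩, by
        rw [LinearMap.mem_ker]
        funext p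
        show coeff (p.2 : ℕ) (TQ cd p.1.1 (a.1 * Ψ)) = 0
        have h1 : Ψ ∈ IQ cd p.1.1 M := (mem_IQ _ _ _ _).2 (hv _ p.1.2)
        have h2 : a.1 * Ψ ∈ IQ cd p.1.1 M := Ideal.mul_mem_left _ _ h1
        rw [coeff_TQ]
        exact (mem_IQ _ _ _ _).1 h2 _ p.2.2⟩
      map_add' := fun a b => by ext; simp [add_mul]
      map_smul' := fun x a => by ext; simp }
  have hg : Function.Injective g := by
    intro a b hab
    have h1 : a.1 * Ψ = b.1 * Ψ := congrArg (fun z => z.1.1) hab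
    exact Subtype.ext (mul_right_cancel₀ h0 h1)
  have h5 := LinearMap.finrank_le_finrank_of_injective hg
  have h6 := cd.hi (K + δ)
  have h7 := cd.lo K
  rw [hdim] at hrn
  have h8 : D * (K + δ) = D * K + D * δ := by ring
  omega

end Pool.Agent.Helper96.Eng
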