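import Pool.Agent.Helper96.Eng.Defs
import Pool.Agent.Helper96.Eng.Zero
import Pool.Agent.Helper96.Eng.Upper
import Pool.Agent.Helper96.Eng.Points
import Pool.Agent.Helper96.Eng.ExtStage
import Pool.Agent.Helper96.Eng.Base

/-!
# ENG LB : the lower bound for the number of points on the tower
-/

set_option autoImplicit false

open PowerSeries Module

universe u

namespace Pool.Agent.Helper96.Eng

/-- the counting inequality in the induction step of `lower` -/
theorem lower_count (m q K C C' S s0 s' t p : ℕ)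
    (h1 : 4 * (m + 1) * q ≤ (4 * (m + 1) + 1) * S + C)
    (h2 : 2 * (m + 1) * t ≤ (2 * (m + 1) + 1) * q + C')
    (h3 : p + t = 2 * s') (h4 : s' + s0 = S) (h5 : s0 ≤ K) :
    m * q ≤ (m + 1) * p + (2 * (m + 1) * K + C + C') := by
  -- first step: `(4 a - 1) q ≤ 4 a S + C`
  have h6 : (4 * m + 3) * q ≤ 4 * (m + 1) * S + C := by
    have h7 : (4 * m + 5) * ((4 * m + 3) * q) ≤ (4 * m + 5) * (4 * (m + 1) * S + C) := by
      nlinarith [Nat.mul_le_mul_left (4 * (m + 1)) h1]
    exact Nat.le_of_mul_le_mul_left h7 (by omega)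
  have h8 : 4 * (m + 1) * S ≤ 4 * (m + 1) * s' + 4 * (m + 1) * K := by
    rw [← mul_add]
    exact Nat.mul_le_mul_left _ (by omega)
  have h9 : 4 * (m + 1) * s' = 2 * (m + 1) * p + 2 * (m + 1) * t := by
    rw [← mul_add, h3]; ring
  nlinarith

/-- LB -/
theorem lower (n : ℕ) : ∀ m : ℕ, ∃ D c κ C q0 : ℕ, 1 ≤ D ∧
    ∀ (F : Type u) [Field F] [Fintype F], (2 : F) ≠ 0 → q0 ≤ Fintype.card F →
      ∃ (st : Stage F n D c κ) (s : Finset (st.A →ₐ[F] F)), (∀ Q ∈ s, Q st.cd.E ≠ 0) ∧
        m * Fintype.card F ≤ (m + 1) * s.card + C := by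
  induction n with
  | zero =>
    intro m
    refine ⟨1, 1, 4, 5 * (m + 1), 0, le_refl 1, ?_⟩
    intro F _ _ h2 _
    obtain ⟨st, s, hs, hc⟩ := base F h2
    refine ⟨st, s, hs, ?_⟩
    nlinarith [Nat.mul_le_mul_left (m + 1) hc]
  | succ n ih =>
    intro m
    obtain ⟨D, c, κ, C, q0, hD, H⟩ := ih (4 * (m + 1))
    obtain ⟨C', q0', HU⟩ := upper.{u} (2 * D) (2 * c + D * 4) (κ + 2 * 4) (by omega) (2 * (m + 1))
    refine ⟨2 * D, 2 * c + D * 4, κ + 2 * 4, 2 * (m + 1) * (D * 8 + 2 * c) + C + C',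
      max q0 q0', by omega, ?_⟩
    intro F _ _ h2 hq
    classical
    obtain ⟨st, s, hs, hc⟩ := H F h2 ((le_max_left _ _).trans hq)
    have hdom : IsDomain st.A := st.dom
    obtain ⟨hV, hne, ⟨st', e, he⟩, htw⟩ := ext_stage h2 st _ rfl
    generalize ff st.cd.S + 2 * st.cd.S ^ 2 * st.Z = h at hV hne e he htw
    -- a nonsquare
    have hchar : ringChar F ≠ 2 := by
      intro h
      apply h2
      have h1 : ((2 : ℕ) : F) = 0 := (ringChar.spec F 2).2 (by rw [h])
      simpa using h1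
    obtain ⟨ν, hν⟩ := FiniteField.exists_nonsquare hchar
    have hν0 : ν ≠ 0 := by
      rintro rfl
      exact hν ⟨0, by simp⟩
    obtain ⟨hdom', cd', hcd'⟩ := htw ν hν0
    -- the points with `h ≠ 0`
    have h0 : (s.filter (fun Q => Q h = 0)).card ≤ D * 8 + 2 * c := by
      have h1 := zero_bound st.cd (s.filter (fun Q => Q h = 0))
        (fun Q hQ => hs Q (Finset.mem_filter.1 hQ).1) 1 8 h hV hne (fun Q hQ k hk => by
          obtain rfl : k = 0 := by omega
          rw [st.cd.T_zero]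
          exact (Finset.mem_filter.1 hQ).2)
      omega
    obtain ⟨tp, tm, hcard, htp, htm⟩ := points h2 h ν hν (s.filter (fun Q => ¬ Q h = 0))
      (fun Q hQ => (Finset.mem_filter.1 hQ).2)
    have htm' := HU F (QuadraticAlgebra st.A (ν • h) 0) cd' ((le_max_right _ _).trans hq) tm
      (fun Q hQ => by
        obtain ⟨P, hP, hPQ⟩ := htm Q hQ
        obtain ⟨hP1, hP2⟩ := Finset.mem_filter.1 hP
        rw [hcd', hPQ, map_mul, map_smul, smul_eq_mul]
        exact mul_ne_zero (mul_ne_zero hν0 hP2) (hs P hP1))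
    refine ⟨st', tp.map ⟨fun Q => Q.comp (e.symm : st'.A →ₐ[F] QuadraticAlgebra st.A h 0), ?_⟩,
      ?_, ?_⟩
    · intro Q Q' hQ
      ext x
      all_goals
        have h3 := DFunLike.congr_fun hQ (e x)
        simpa using h3
    · intro Q hQ
      obtain ⟨Q', hQ', rfl⟩ := Finset.mem_map.1 hQ
      obtain ⟨P, hP, hPQ⟩ := htp Q' hQ'
      obtain ⟨hP1, hP2⟩ := Finset.mem_filter.1 hP
      have h3 : e.symm st'.cd.E = ⟨h * st.cd.E, 0⟩ := by rw [← he]; simp
      have h4 : Q' (e.symm st'.cd.E) ≠ 0 := by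
        rw [h3, hPQ, map_mul]
        exact mul_ne_zero hP2 (hs P hP1)
      exact h4
    · rw [Finset.card_map]
      refine lower_count m _ (D * 8 + 2 * c) C C' s.card _ _ tm.card tp.card hc htm' hcard ?_ h0
      rw [add_comm]
      exact Finset.card_filter_add_card_filter_not _

end Pool.Agent.Helper96.Eng
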