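import Pool.Agent.Helper96.Eng.Zero

/-!
# ENG NONZ : Σ e_i g_i^q ≠ 0
-/

set_option autoImplicit false

open PowerSeries Module

universe u

namespace Pool.Agent.Helper96.Eng

/-- Frobenius on power series over an algebra over a finite field, modulo `X^q`. -/
theorem pow_card_series {F R : Type*} [Field F] [Fintype F] [CommRing R] [Algebra F R]
    (f : PowerSeries R) : ∃ t : PowerSeries R,
      f ^ Fintype.card F = C (coeff 0 f ^ Fintype.card F) + X ^ Fintype.card F * t := by
  obtain ⟨t, ht⟩ : X ∣ f - C (coeff 0 f) := by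
    rw [X_dvd_iff, ← coeff_zero_eq_constantCoeff_apply, map_sub]
    simp
  refine ⟨t ^ Fintype.card F, ?_⟩
  have h1 : f = C (coeff 0 f) + X * t := by rw [← ht]; ring
  have h2 := map_add (FiniteField.frobeniusAlgHom F (PowerSeries R)) (C (coeff 0 f)) (X * t)
  simp only [FiniteField.coe_frobeniusAlgHom] at h2
  rw [← h1] at h2
  rw [h2, mul_pow, map_pow]

theorem TQ_injective {F A : Type u} [Field F] [CommRing A] [IsDomain A] [Algebra F A]
    {D c κ : ℕ} (cd : CurveData F A D c κ) (P : A →ₐ[F] F)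
    (hP : P cd.E ≠ 0) (a : A) (ha : a ≠ 0) : TQ cd P a ≠ 0 := by
  intro h
  obtain ⟨δ, hδ⟩ := cd.exh a
  have h1 := zero_bound cd {P} (by simpa using hP) (D * δ + 2 * c + 1) δ a hδ ha (by
    intro Q hQ k _
    rw [Finset.mem_singleton] at hQ
    subst hQ
    rw [← coeff_TQ, h]; simp)
  simp at h1

/-- NONZ -/
theorem nonzero {F A : Type u} [Field F] [Fintype F] [CommRing A] [IsDomain A] [Algebra F A]
    {D c κ : ℕ} (cd : CurveData F A D c κ) (P : A →ₐ[F] F)
    (hP : P cd.E ≠ 0) (L : ℕ) (hq : D * L + 2 * c < Fintype.card F)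
    {ι : Type} [Fintype ι] (e g : ι → A) (he : LinearIndependent F e) (heL : ∀ i, e i ∈ cd.V L)
    (hg : ∃ i, g i ≠ 0) :
    ∑ i, e i * g i ^ Fintype.card F ≠ 0 := by
  classical
  intro hsum
  set q := Fintype.card F with hqdef
  -- minimal order
  obtain ⟨i0, hi0, hmin⟩ := Finset.exists_min_image (Finset.univ.filter fun i => g i ≠ 0)
    (fun i => (TQ cd P (g i)).order.toNat) (by
      obtain ⟨i, hi⟩ := hg
      exact ⟨i, by simp [hi]⟩)
  rw [Finset.mem_filter] at hi0
  set m := (TQ cd P (g i0)).order.toNat with hm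
  have hdvd : ∀ i, X ^ m ∣ TQ cd P (g i) := by
    intro i
    by_cases h : g i = 0
    · rw [h, map_zero]; exact dvd_zero _
    · exact (pow_dvd_pow _ (hmin i (by simp [h]))).trans X_pow_order_dvd
  choose h hh using hdvd
  have hη0 : coeff 0 (h i0) ≠ 0 := by
    have h1 := coeff_order (TQ_injective cd P hP _ hi0.2)
    rw [← hm] at h1
    have h2 : coeff m (TQ cd P (g i0)) = coeff 0 (h i0) := by
      conv_lhs => rw [hh i0]
      have := coeff_X_pow_mul (h i0) m 0
      simpa using this
    rwa [h2] at h1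
  -- expand
  have h1 : ∑ i, TQ cd P (e i) * h i ^ q = 0 := by
    have h2 : (X : PowerSeries F) ^ (m * q) * ∑ i, TQ cd P (e i) * h i ^ q = 0 := by
      rw [Finset.mul_sum]
      have h3 := congrArg (TQ cd P) hsum
      rw [map_sum, map_zero] at h3
      rw [← h3]
      refine Finset.sum_congr rfl fun i _ => ?_
      rw [map_mul, map_pow, hh i]
      ring
    exact (mul_eq_zero.1 h2).resolve_left (pow_ne_zero _ X_ne_zero)
  have h2 : ∀ i, ∃ t : PowerSeries F, h i ^ q = C (coeff 0 (h i)) + X ^ q * t := by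
    intro i
    obtain ⟨t, ht⟩ := pow_card_series (F := F) (h i)
    refine ⟨t, ?_⟩
    rw [ht, FiniteField.pow_card]
  choose t ht using h2
  set Ψ : A := ∑ i, coeff 0 (h i) • e i with hΨ
  have hΨT : TQ cd P Ψ = - (X ^ q * ∑ i, TQ cd P (e i) * t i) := by
    rw [eq_neg_iff_add_eq_zero, ← h1, hΨ, map_sum, Finset.mul_sum, ← Finset.sum_add_distrib]
    refine Finset.sum_congr rfl fun i _ => ?_
    rw [TQ_smul, ht i]
    ring
  have hΨ0 : Ψ ≠ 0 := by
    intro h0
    have := Fintype.linearIndependent_iff.1 he (fun i => coeff 0 (h i)) h0 i0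
    exact hη0 this
  have h5 := zero_bound cd {P} (by simpa using hP) q L Ψ
    (Submodule.sum_mem _ fun i _ => Submodule.smul_mem _ _ (heL i)) hΨ0 (by
      intro Q hQ k hk
      rw [Finset.mem_singleton] at hQ
      subst hQ
      rw [← coeff_TQ, hΨT, map_neg, coeff_X_pow_mul', if_neg (by omega), neg_zero])
  rw [Finset.card_singleton, one_mul] at h5
  omega

end Pool.Agent.Helper96.Eng
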