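import Pool.Agent.Helper96.Eng.Defs

/-!
# ENG ORD : the valuation of a totally ramified quadratic extension
-/

set_option autoImplicit false

open PowerSeries Module

universe u

namespace Pool.Agent.Helper96.Eng

/-- norm -/
def nrm {A : Type u} [CommRing A] (h : A) (b : QuadraticAlgebra A h 0) : A :=
  b.re ^ 2 - h * b.im ^ 2

theorem nrm_mul {A : Type u} [CommRing A] (h : A) (a b : QuadraticAlgebra A h 0) :
    nrm h (a * b) = nrm h a * nrm h b := by
  simp only [nrm, QuadraticAlgebra.re_mul, QuadraticAlgebra.im_mul]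
  ring

theorem two_mul_min (a b : ℕ∞) : 2 * min a b = min (2 * a) (2 * b) := by
  rcases le_total a b with h | h
  · rw [min_eq_left h, min_eq_left (by gcongr)]
  · rw [min_eq_right h, min_eq_right (by gcongr)]

theorem two_mul_eq_top (a : ℕ∞) (h : 2 * a = ⊤) : a = ⊤ := by
  induction a with
  | top => rfl
  | coe a =>
    exfalso
    have h1 : (2 * (a : ℕ∞)) = ((2 * a : ℕ) : ℕ∞) := by push_cast; rfl
    rw [h1] at h
    exact ENat.natCast_ne_top _ h

theorem two_mul_add_one_eq_top (a : ℕ∞) (h : 2 * a + 1 = ⊤) : a = ⊤ := by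
  induction a with
  | top => rfl
  | coe a =>
    exfalso
    have h1 : (2 * (a : ℕ∞) + 1) = ((2 * a + 1 : ℕ) : ℕ∞) := by push_cast; rfl
    rw [h1] at h
    exact ENat.natCast_ne_top _ h

theorem parity (a b : ℕ∞) (h : 2 * a = 2 * b + 1) : a = ⊤ ∧ b = ⊤ := by
  have htop : (2 : ℕ∞) * ⊤ = ⊤ := rfl
  induction a with
  | top =>
    refine ⟨rfl, two_mul_add_one_eq_top b ?_⟩
    rw [← h, htop]
  | coe a =>
    induction b with
    | top =>
      exfalso
      have := two_mul_eq_top (a : ℕ∞) (by rw [h, htop]; rfl)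
      exact ENat.natCast_ne_top _ this
    | coe b =>
      exfalso
      have h1 : ((2 * a : ℕ) : ℕ∞) = ((2 * b + 1 : ℕ) : ℕ∞) := by push_cast; exact h
      have h2 : 2 * a = 2 * b + 1 := by exact_mod_cast h1
      omega

theorem min_add_one (a b : ℕ∞) : min (a + 1) (b + 1) = min a b + 1 := by
  rcases le_total a b with h | h
  · rw [min_eq_left h, min_eq_left (by gcongr)]
  · rw [min_eq_right h, min_eq_right (by gcongr)]

theorem v_nrm {A : Type u} [CommRing A] (v : AddValuation A ℕ∞) (h : A) (vh : v h = 1)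
    (v_top : ∀ a, v a = ⊤ → a = 0) (b : QuadraticAlgebra A h 0) :
    v (nrm h b) = min (2 * v b.re) (2 * v b.im + 1) := by
  have h1 : v (b.re ^ 2) = 2 * v b.re := by
    rw [AddValuation.map_pow]; simp [two_mul]
  have h2 : v (-(h * b.im ^ 2)) = 2 * v b.im + 1 := by
    rw [AddValuation.map_neg, AddValuation.map_mul, AddValuation.map_pow, vh, add_comm]
    simp [two_mul]
  by_cases hne : v (b.re ^ 2) = v (-(h * b.im ^ 2))
  · rw [h1, h2] at hne
    obtain ⟨h3, h4⟩ := parity _ _ hne
    have h5 := v_top _ h3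
    have h6 := v_top _ h4
    rw [nrm, h5, h6]
    simp
  · rw [nrm, sub_eq_add_neg, AddValuation.map_add_of_distinct_val _ hne, h1, h2]

/-- ORD -/
theorem ord_ext {A : Type u} [CommRing A] (v : AddValuation A ℕ∞)
    (v_top : ∀ a, v a = ⊤ → a = 0) (h : A) (vh : v h = 1) :
    ∃ w : AddValuation (QuadraticAlgebra A h 0) ℕ∞, (∀ b, w b = ⊤ → b = 0) ∧
      ∀ x y, w ⟨x, y⟩ = min (2 * v x) (2 * v y + 1) := by
  refine ⟨AddValuation.of (fun b => v (nrm h b)) ?_ ?_ ?_ ?_, ?_, ?_⟩
  · simp [nrm]
  · have h1 : nrm h 1 = 1 := by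
      rw [nrm, QuadraticAlgebra.re_one, QuadraticAlgebra.im_one]; ring
    rw [h1, AddValuation.map_one]
  · intro a b
    rw [v_nrm v h vh v_top, v_nrm v h vh v_top, v_nrm v h vh v_top]
    rw [QuadraticAlgebra.re_add, QuadraticAlgebra.im_add]
    have h1 := v.map_add a.re b.re
    have h2 := v.map_add a.im b.im
    have h3 : min (2 * v a.re) (2 * v b.re) ≤ 2 * v (a.re + b.re) := by
      rw [← two_mul_min]; gcongr
    have h4 : min (2 * v a.im + 1) (2 * v b.im + 1) ≤ 2 * v (a.im + b.im) + 1 := by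
      rw [min_add_one, ← two_mul_min]; gcongr
    refine le_min ?_ ?_
    · exact (min_le_min (min_le_left _ _) (min_le_left _ _)).trans h3
    · exact (min_le_min (min_le_right _ _) (min_le_right _ _)).trans h4
  · intro a b
    rw [nrm_mul, AddValuation.map_mul]
  · intro b hb
    rw [AddValuation.of_apply, v_nrm v h vh v_top] at hb
    rw [min_eq_top] at hb
    have h1 : v b.re = ⊤ := two_mul_eq_top _ hb.1
    have h2 : v b.im = ⊤ := two_mul_add_one_eq_top _ hb.2
    ext
    · simpa using v_top _ h1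
    · simpa using v_top _ h2
  · intro x y
    rw [AddValuation.of_apply, v_nrm v h vh v_top]

end Pool.Agent.Helper96.Eng
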