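import Pool.Agent.Helper96.Eng.Defs

/-!
# ENG SQRT : square roots of power series with filtered coefficients
-/

set_option autoImplicit false

open PowerSeries Module

universe u

namespace Pool.Agent.Helper96.Eng

/-- coefficients of the square root -/
def sq {A : Type u} [CommRing A] (half : A) (U : ℕ → A) : ℕ → A
  | 0 => 1
  | (k + 1) => half * (U (k + 1) - ∑ i : Fin k, sq half U (i + 1) * sq half U (k - i))
termination_by k => k
decreasing_by all_goals omega

/-- SQRT -/
theorem sqrt_series {F A : Type u} [Field F] [CommRing A] [Algebra F A] (h2 : (2 : F) ≠ 0)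
    {D c κ : ℕ} (cd : CurveData F A D c κ) (t : ℕ) (U : PowerSeries A) (h0 : coeff 0 U = 1)
    (hU : ∀ k, coeff k U ∈ cd.V (t * k)) :
    ∃ W : PowerSeries A, W ^ 2 = U ∧ coeff 0 W = 1 ∧ ∀ k, coeff k W ∈ cd.V (t * k) := by
  set half : A := algebraMap F A 2⁻¹ with hhalf
  have hh : 2 * half = 1 := by
    have : (2 : A) = algebraMap F A 2 := (map_ofNat (algebraMap F A) 2).symm
    rw [this, hhalf, ← map_mul, mul_inv_cancel₀ h2, map_one]
  set w : ℕ → A := sq half (fun k => coeff k U) with hw
  have hw0 : w 0 = 1 := by rw [hw, sq]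
  have hwk : ∀ k, w (k + 1) = half * (coeff (k + 1) U - ∑ i ∈ Finset.range k, w (i + 1) * w (k - i)) := by
    intro k
    rw [hw, sq, Finset.sum_range]
  refine ⟨PowerSeries.mk w, ?_, by simp [hw0], ?_⟩
  · ext k
    rw [pow_two, coeff_mul]
    simp only [coeff_mk]
    rw [Finset.Nat.sum_antidiagonal_eq_sum_range_succ (fun i j => w i * w j)]
    cases k with
    | zero => simp [hw0, h0]
    | succ k =>
      rw [Finset.sum_range_succ, Finset.sum_range_succ', hw0]
      simp only [Nat.sub_self, Nat.sub_zero, hw0, one_mul, mul_one]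
      have h3 : ∀ i ∈ Finset.range k, w (i + 1) * w (k + 1 - (i + 1)) = w (i + 1) * w (k - i) := by
        intro i _
        rw [Nat.add_sub_add_right]
      rw [Finset.sum_congr rfl h3]
      have h4 := hwk k
      have h5 : w (k + 1) + w (k + 1) =
          coeff (k + 1) U - ∑ i ∈ Finset.range k, w (i + 1) * w (k - i) := by
        rw [h4]
        linear_combination (coeff (k + 1) U - ∑ i ∈ Finset.range k, w (i + 1) * w (k - i)) * hh
      linear_combination h5
  · intro k
    rw [coeff_mk]
    induction k using Nat.strong_induction_on with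
    | _ k ih =>
      cases k with
      | zero => rw [hw0]; simpa using cd.one_mem
      | succ k =>
        rw [hwk, hhalf, ← Algebra.smul_def]
        refine Submodule.smul_mem _ _ (Submodule.sub_mem _ (hU _) (Submodule.sum_mem _ ?_))
        intro i hi
        have hi' := Finset.mem_range.1 hi
        have h1 := cd.mul_mem _ _ _ _ (ih (i + 1) (by omega)) (ih (k - i) (by omega))
        have h3 : t * (i + 1) + t * (k - i) = t * (k + 1) := by
          rw [← mul_add]; congr 1; omega
        rwa [h3] at h1

end Pool.Agent.Helper96.Eng
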